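import Mathlib
import Pool.Agent.Lib.MP_8f66f0_al_ChernS.Defs2

/-! # The integral Chern character of the Whitehead group: definitions.

The four types of pairs of letters: no mark, the marks at the ends (an edge of the even polygon), the
sum of the two edges of the full polygon, and the triangle. -/

set_option autoImplicit false
set_option linter.unusedSectionVars false

namespace Pool.Agent.Lib.MP_8f66f0_al_Int

open Pool.Agent.Lib.MP_8f66f0_al_FinQ Pool.Agent.Lib.MP_8f66f0_al_Uni
  Pool.Agent.Lib.MP_8f66f0_al_ChernS

/-- The types of the pairs of letters. -/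
inductive Ty2 : Type
  | O : Ty2
  | Al : Ty2
  | Be : Ty2
  | T : Ty2

section

variable {Γ : Type*} [Group Γ] {S : Type*} [CommRing S]

/-- The factor of a pair of letters in the ring of marked words. -/
noncomputable def yy2 : Ty2 → Γ → Γ → RM S Γ
  | Ty2.O, h, g => uM h * uM g
  | Ty2.Al, h, g => nM * uM h * uM g * nM
  | Ty2.Be, h, g => nM * uM h * nM * uM g + uM h * nM * uM g * nM
  | Ty2.T, h, g => nM * uM h * nM * uM g * nM

/-- The factor of three consecutive vertices, in any ring. -/
def zz2 {K : Type*} [Ring K] : Ty2 → K → K → K → K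
  | Ty2.O, _, _, _ => 1
  | Ty2.Al, a, _, c => a * c
  | Ty2.Be, a, b, c => a * b + b * c
  | Ty2.T, a, b, c => a * b * c

/-- Products over the pairs of letters of a word, starting at the vertex `v`. -/
noncomputable def zp2 : Γ → List Ty2 → List Γ → MonoidAlgebra S (FreeMonoid Γ)
  | _, [], _ => 1
  | v, t :: ts, h :: g :: e => zz2 t (nn v) (nn (v * h)) (nn (v * h * g)) * zp2 (v * h * g) ts e
  | _, _ :: _, _ => 0

/-- The product of the factors of a list of types over a sequence of vertices. -/
def zprod {K : Type*} [Ring K] (N : ℕ → K) (ts : List Ty2) : K :=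
  ((List.range ts.length).map fun j =>
    zz2 (ts.getD j Ty2.O) (N (2 * j)) (N (2 * j + 1)) (N (2 * j + 2))).prod

/-- The lists of types of length `n` with `r` triangles, `k` factors `Al` and `l` factors `Be`. -/
def TL : ℕ → ℕ → ℕ → ℕ → List (List Ty2)
  | 0, 0, 0, 0 => [[]]
  | 0, _ + 1, _, _ => []
  | 0, 0, _ + 1, _ => []
  | 0, 0, 0, _ + 1 => []
  | n + 1, r, k, l =>
    (TL n r k l).map (· ++ [Ty2.O]) ++
    ((match r with
      | 0 => []
      | r' + 1 => (TL n r' k l).map (· ++ [Ty2.T])) ++
    ((match k with
      | 0 => []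
      | k' + 1 => (TL n r k' l).map (· ++ [Ty2.Al])) ++
    (match l with
      | 0 => []
      | l' + 1 => (TL n r k l').map (· ++ [Ty2.Be]))))

end

end Pool.Agent.Lib.MP_8f66f0_al_Int
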