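import Mathlib
import Pool.Agent.Lib.MP_8f66f0_al_ChernS.Bridge
import Pool.Agent.Lib.MP_8f66f0_al_Int.Defs

/-! # From products in the ring of marked words to products of letters (four types). -/

set_option autoImplicit false
set_option linter.unusedSectionVars false
set_option linter.unusedVariables false

namespace Pool.Agent.Lib.MP_8f66f0_al_Int

open Pool.Agent.Lib.MP_8f66f0_al_FinQ Pool.Agent.Lib.MP_8f66f0_al_Uni
  Pool.Agent.Lib.MP_8f66f0_al_ChernS

variable {Γ : Type*} [Group Γ] {S : Type*} [CommRing S] {ω : Γ → List Γ → S}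

lemma bridge2_yy_mem (t : Ty2) (h g : Γ) : (yy2 t h g : RM S Γ) ∈ bridge_Tot (h * g) := by
  have hn := bridge_nM_mem (Γ := Γ) (S := S)
  have hh := bridge_uM_mem (S := S) h
  have hg := bridge_uM_mem (S := S) g
  have e1 : (nM * uM h * nM * uM g : RM S Γ) ∈ bridge_Tot (h * g) := by
    have := bridge_mul_mem (bridge_mul_mem (bridge_mul_mem hn hh) hn) hg
    simpa using this
  have e2 : (nM * uM h * nM * uM g * nM : RM S Γ) ∈ bridge_Tot (h * g) := by
    have := bridge_mul_mem e1 hn
    simpa using this
  have e3 : (uM h * uM g : RM S Γ) ∈ bridge_Tot (h * g) := bridge_mul_mem hh hg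
  have e4 : (nM * uM h * uM g * nM : RM S Γ) ∈ bridge_Tot (h * g) := by
    have := bridge_mul_mem (bridge_mul_mem (bridge_mul_mem hn hh) hg) hn
    simpa using this
  have e5 : (uM h * nM * uM g * nM : RM S Γ) ∈ bridge_Tot (h * g) := by
    have := bridge_mul_mem (bridge_mul_mem (bridge_mul_mem hh hn) hg) hn
    simpa using this
  cases t with
  | O => exact e3
  | Al => exact e4
  | Be => exact add_mem e1 e5
  | T => exact e2

lemma bridge2_kap_yy (t : Ty2) (h g : Γ) :
    bridge_kap (yy2 t h g : RM S Γ) = zz2 t (nn 1) (nn h) (nn (h * g)) := by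
  have hn := bridge_nM_mem (Γ := Γ) (S := S)
  have hh := bridge_uM_mem (S := S) h
  have hg := bridge_uM_mem (S := S) g
  have m1 : (nM * uM h : RM S Γ) ∈ bridge_Tot h := by
    have := bridge_mul_mem hn hh
    simpa using this
  have m2 : (nM * uM h * nM : RM S Γ) ∈ bridge_Tot h := by
    have := bridge_mul_mem m1 hn
    simpa using this
  have m3 : (nM * uM h * nM * uM g : RM S Γ) ∈ bridge_Tot (h * g) := bridge_mul_mem m2 hg
  have m4 : (nM * uM h * uM g : RM S Γ) ∈ bridge_Tot (h * g) := bridge_mul_mem m1 hg
  have m5 : (uM h * nM : RM S Γ) ∈ bridge_Tot h := by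
    have := bridge_mul_mem hh hn
    simpa using this
  have m6 : (uM h * nM * uM g : RM S Γ) ∈ bridge_Tot (h * g) := bridge_mul_mem m5 hg
  have e1 : bridge_kap (nM * uM h * nM * uM g : RM S Γ) = nn 1 * nn h := by
    rw [bridge_kap_mul m2, bridge_kap_mul m1, bridge_kap_mul hn, bridge_kap_nM, bridge_kap_uM,
      bridge_kap_uM, map_one, map_one, mul_one, mul_one, trans_nn, mul_one]
  have e2 : bridge_kap (nM * uM h * nM * uM g * nM : RM S Γ) = nn 1 * nn h * nn (h * g) := by
    rw [bridge_kap_mul m3, e1, bridge_kap_nM, trans_nn, mul_one]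
  have e3 : bridge_kap (uM h * uM g : RM S Γ) = 1 := by
    rw [bridge_kap_mul hh, bridge_kap_uM, bridge_kap_uM, map_one, mul_one]
  have e4 : bridge_kap (nM * uM h * uM g * nM : RM S Γ) = nn 1 * nn (h * g) := by
    rw [bridge_kap_mul m4, bridge_kap_mul m1, bridge_kap_mul hn, bridge_kap_nM, bridge_kap_uM,
      bridge_kap_uM, map_one, map_one, mul_one, mul_one, trans_nn, mul_one]
  have e5 : bridge_kap (uM h * nM * uM g * nM : RM S Γ) = nn h * nn (h * g) := by
    rw [bridge_kap_mul m6, bridge_kap_mul m5, bridge_kap_mul hh, bridge_kap_nM, bridge_kap_uM,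
      bridge_kap_uM, map_one, mul_one, trans_nn, trans_nn, mul_one, mul_one, one_mul]
  cases t with
  | O => exact e3
  | Al => exact e4
  | Be =>
    change bridge_kap (nM * uM h * nM * uM g + uM h * nM * uM g * nM) =
      nn 1 * nn h + nn h * nn (h * g)
    rw [map_add, e1, e5]
  | T => exact e2

lemma bridge2_trans_zz (v : Γ) (t : Ty2) (a b c : Γ) :
    trans v (zz2 t (nn a) (nn b) (nn c) : MonoidAlgebra S (FreeMonoid Γ)) =
      zz2 t (nn (v * a)) (nn (v * b)) (nn (v * c)) := by
  cases t with
  | O =>
    simp only [zz2]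
    rw [map_one]
  | Al =>
    simp only [zz2]
    rw [map_mul, trans_nn, trans_nn]
  | Be =>
    simp only [zz2]
    rw [map_add, map_mul, map_mul, trans_nn, trans_nn, trans_nn]
  | T =>
    simp only [zz2]
    rw [map_mul, map_mul, trans_nn, trans_nn, trans_nn]

lemma bridge2_main (ts : List Ty2) : ∀ (v : Γ) (e : List Γ), e.length = 2 * ts.length →
    trans v (bridge_kap (pp (ts.map yy2) e : RM S Γ)) = zp2 v ts e ∧
      (pp (ts.map yy2) e : RM S Γ) ∈ bridge_Tot e.prod := by
  induction ts with
  | nil =>
    intro v e he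
    have : e = [] := List.length_eq_zero_iff.1 (by simpa using he)
    subst this
    have e1 : (pp (List.map yy2 []) [] : RM S Γ) = MonoidAlgebra.single 1 1 := by
      simp only [List.map_nil, pp]
      rfl
    rw [e1]
    refine ⟨?_, ?_⟩
    · rw [bridge_kap_single, bridge_trans_single]
      rfl
    · exact bridge_single_mem 1 1
  | cons t ts ih =>
    intro v e he
    match e, he with
    | [], he => simp at he
    | [_], he =>
      simp at he
      omega
    | h :: g :: e, he =>
      have he' : e.length = 2 * ts.length := by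
        simp only [List.length_cons] at he
        omega
      have hpp : (pp ((t :: ts).map yy2) (h :: g :: e) : RM S Γ) =
          yy2 t h g * pp (ts.map yy2) e := by
        simp only [List.map_cons, pp]
      have hzp : (zp2 v (t :: ts) (h :: g :: e) : MonoidAlgebra S (FreeMonoid Γ)) =
          zz2 t (nn v) (nn (v * h)) (nn (v * h * g)) * zp2 (v * h * g) ts e := by
        simp only [zp2]
      rw [hpp, hzp]
      obtain ⟨i1, i2⟩ := ih (v * h * g) e he'
      refine ⟨?_, ?_⟩
      · rw [bridge_kap_mul (bridge2_yy_mem t h g), bridge2_kap_yy, map_mul, bridge2_trans_zz,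
          bridge_trans_trans, ← mul_assoc v h g, i1, mul_one]
      · have := bridge_mul_mem (bridge2_yy_mem t h g) i2
        simpa [List.prod_cons, mul_assoc] using this

/-- PROOF. Copy of `bridge` in `MP_8f66f0_al_ChernS/Bridge.lean` with the types `Ty2` (the lemmas
`bridge_kap`, `bridge_Tot`, `bridge_kap_mul`, `bridge_LM`, `bridge_nM_mem`, `bridge_uM_mem`, ... there
are public and can be used): `yy2 t h g` has total `h * g` (`bridge_yy_mem`), `bridge_kap (yy2 t h g) =
zz2 t (nn 1) (nn h) (nn (h * g))` (`bridge_kap_yy`; the type `O` has `bridge_kap = 1`), `trans v (zz2 t (nn a)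
(nn b) (nn c)) = zz2 t (nn (v * a)) (nn (v * b)) (nn (v * c))`, then `bridge_main` and `bridge` word by word. -/
theorem bridge2 (ts : List Ty2) (e : List Γ) (he : e.length = 2 * ts.length) :
    LM ω (nM * pp (ts.map yy2) e) = Lc ω e.prod (nn 1 * zp2 1 ts e) := by
  obtain ⟨i1, i2⟩ := bridge2_main (S := S) ts 1 e he
  have h := bridge_mul_mem bridge_nM_mem i2
  rw [one_mul] at h
  rw [bridge_LM h, bridge_kap_mul bridge_nM_mem, bridge_kap_nM, i1]

lemma bridge2_zp (ts : List Ty2) : ∀ (v : Γ) (e : List Γ), e.length = 2 * ts.length →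
    (zp2 v ts e : MonoidAlgebra S (FreeMonoid Γ)) = ((List.range ts.length).map fun j =>
      zz2 (ts.getD j Ty2.O) (nn (v * (e.take (2 * j)).prod)) (nn (v * (e.take (2 * j + 1)).prod))
        (nn (v * (e.take (2 * j + 2)).prod))).prod := by
  induction ts with
  | nil =>
    intro v e he
    simp [zp2]
  | cons t ts ih =>
    intro v e he
    match e, he with
    | [], he => simp at he
    | [_], he =>
      simp at he
      omega
    | h :: g :: e, he =>
      have he' : e.length = 2 * ts.length := by
        simp only [List.length_cons] at he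
        omega
      have hzp : (zp2 v (t :: ts) (h :: g :: e) : MonoidAlgebra S (FreeMonoid Γ)) =
          zz2 t (nn v) (nn (v * h)) (nn (v * h * g)) * zp2 (v * h * g) ts e := by
        simp only [zp2]
      rw [hzp, ih (v * h * g) e he', List.length_cons, List.range_succ_eq_map, List.map_cons,
        List.prod_cons, List.map_map]
      congr 1
      · simp [mul_assoc]
      · congr 1
        refine List.map_congr_left fun j _ => ?_
        have e0 : 2 * (j + 1) = 2 * j + 1 + 1 := by ring
        have e1 : 2 * (j + 1) + 1 = 2 * j + 1 + 1 + 1 := by ring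
        have e2 : 2 * (j + 1) + 2 = 2 * j + 2 + 1 + 1 := by ring
        simp only [Function.comp_apply, Nat.succ_eq_add_one, List.getD_cons_succ, e0, e1, e2,
          List.take_succ_cons, List.prod_cons, mul_assoc]

/-- PROOF. Copy of `bridge_zp` and `zp_eq` in `MP_8f66f0_al_ChernS/Bridge.lean`. -/
theorem zp2_eq (ts : List Ty2) (e : List Γ) (he : e.length = 2 * ts.length) :
    (zp2 1 ts e : MonoidAlgebra S (FreeMonoid Γ)) = zprod (fun j => nn (vx e j)) ts := by
  rw [bridge2_zp ts 1 e he, zprod]
  congr 1
  refine List.map_congr_left fun j hj => ?_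
  have hj' : j < ts.length := List.mem_range.1 hj
  rw [vx_of_le e (2 * j) (by omega), vx_of_le e (2 * j + 1) (by omega),
    vx_of_le e (2 * j + 2) (by omega), one_mul, one_mul, one_mul]

end Pool.Agent.Lib.MP_8f66f0_al_Int
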