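import Mathlib
import Pool.Agent.Lib.MP_8f66f0_al_ChernS.EvTr
import Pool.Agent.Lib.MP_8f66f0_al_Int.Defs

/-! # Traces of the products of the factors (four types). -/

set_option autoImplicit false
set_option linter.unusedSectionVars false
set_option linter.unusedVariables false

namespace Pool.Agent.Lib.MP_8f66f0_al_Int

open Pool.Agent.Lib.MP_8f66f0_al_FinQ Pool.Agent.Lib.MP_8f66f0_al_Uni
  Pool.Agent.Lib.MP_8f66f0_al_ChernS

variable {Γ : Type*} [Group Γ] {S : Type*} [CommRing S] {ω : Γ → List Γ → S} {n r : ℕ}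

/-- The image of the factor of a type in an abstract ring. -/
def evT2_M {R : Type*} [Ring R] (a b N : R) : Ty2 → R
  | Ty2.O => b * a
  | Ty2.Al => N * b * a * N
  | Ty2.Be => N * b * N * a + b * N * a * N
  | Ty2.T => N * b * N * a * N

lemma evT2_comm {R : Type*} [Ring R] (a b N : R) (hba : b * a = 1) (hN : N * N = 0) (t : Ty2) :
    N * evT2_M a b N t = evT2_M a b N t * N := by
  cases t with
  | O =>
    change N * (b * a) = b * a * N
    rw [hba, mul_one, one_mul]
  | Al =>
    change N * (N * b * a * N) = N * b * a * N * N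
    calc N * (N * b * a * N) = (N * N) * b * a * N := by noncomm_ring
      _ = 0 := by rw [hN]; noncomm_ring
      _ = N * b * a * (N * N) := by rw [hN]; noncomm_ring
      _ = N * b * a * N * N := by noncomm_ring
  | Be =>
    change N * (N * b * N * a + b * N * a * N) = (N * b * N * a + b * N * a * N) * N
    calc N * (N * b * N * a + b * N * a * N) = (N * N) * b * N * a + N * b * N * a * N := by
          noncomm_ring
      _ = N * b * N * a * N + b * N * a * (N * N) := by rw [hN]; noncomm_ring
      _ = (N * b * N * a + b * N * a * N) * N := by noncomm_ring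
  | T =>
    change N * (N * b * N * a * N) = N * b * N * a * N * N
    calc N * (N * b * N * a * N) = (N * N) * b * N * a * N := by noncomm_ring
      _ = 0 := by rw [hN]; noncomm_ring
      _ = N * b * N * a * (N * N) := by rw [hN]; noncomm_ring
      _ = N * b * N * a * N * N := by noncomm_ring

lemma evT2_zero {R : Type*} [Ring R] (a b N : R) (hN : N * N = 0) :
    N * evT2_M a b N Ty2.T = 0 := by
  change N * (N * b * N * a * N) = 0
  calc N * (N * b * N * a * N) = (N * N) * b * N * a * N := by noncomm_ring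
    _ = 0 := by rw [hN]; noncomm_ring

lemma evT2_prod {R : Type*} [Ring R] (a b N : R) (hba : b * a = 1) (hN : N * N = 0)
    (ts : List Ty2) (hT : Ty2.T ∈ ts) : N * (ts.map (evT2_M a b N)).prod = 0 := by
  induction ts with
  | nil => exact absurd hT (List.not_mem_nil)
  | cons t ts ih =>
    rw [List.map_cons, List.prod_cons, ← mul_assoc]
    rcases List.mem_cons.1 hT with h | h
    · rw [← h, evT2_zero a b N hN, zero_mul]
    · rw [evT2_comm a b N hba hN, mul_assoc, ih h, mul_zero]

lemma evT2_ext2 (A B : Matrix (Fin n) (Fin n) (MonoidAlgebra S Γ)) (t : Ty2) :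
    ext2 B A (yy2 t) = evT2_M (A.map upHom) (B.map upHom) (Matrix.scalar (Fin n) nM) t := by
  cases t with
  | O =>
    have h := alg_ext2 A B 1 1 1
    simp only [map_one, mul_one, one_mul] at h
    exact h
  | Al =>
    have h := alg_ext2 A B nM 1 nM
    simp only [map_one, mul_one] at h
    exact h
  | Be =>
    have h3 := alg_ext2 A B nM nM 1
    have h4 := alg_ext2 A B 1 nM nM
    simp only [map_one, mul_one, one_mul] at h3 h4
    change _ = Matrix.scalar (Fin n) nM * B.map upHom * Matrix.scalar (Fin n) nM * A.map upHom +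
      B.map upHom * Matrix.scalar (Fin n) nM * A.map upHom * Matrix.scalar (Fin n) nM
    rw [← h3, ← h4, ← alg_ext2_add]
    rfl
  | T => exact alg_ext2 A B nM nM nM

lemma evT2_map {K : Type*} [Ring K] (f : RM S Γ →+* K)
    (A B : Matrix (Fin n) (Fin n) (MonoidAlgebra S Γ)) (t : Ty2) :
    f.mapMatrix (ext2 B A (yy2 t)) = evT2_M (f.mapMatrix (A.map upHom))
      (f.mapMatrix (B.map upHom)) (Matrix.scalar (Fin n) (f nM)) t := by
  rw [evT2_ext2]
  cases t <;> simp only [evT2_M, map_mul, map_add, evTr_scalar]

/-- PROOF. As `evT` in `MP_8f66f0_al_ChernS/EvTr.lean`: `exists_syn` gives `f : RM S Γ →+* K` and `L` with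
`f nM * f nM = 0` (`evTr_crit hω.diag`) and `LM ω x = L (f x)`. Put `N = scalar (f nM)`,
`b = f.mapMatrix (B.map upHom)`, `a = f.mapMatrix (A.map upHom)`, `b * a = 1` (`evTr_one`), `N * N = 0`, and
`M t = f.mapMatrix (ext2 B A (yy2 t))`. As for `ext2_E`, `ext2_X`, `ext2_T` in `Alg.lean` (`ext2` is bilinear):
`M O = b * a = 1`, `M Al = N * (b * a) * N = 0`, `M Be = N * b * N * a + b * N * a * N`, `M T = N * b * N * a * N`.
So `N * M t = M t * N` for all four types and `N * M T = 0`. By induction on `ts`, if `T ∈ ts` then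
`N * (product of the M t) = 0`: if the head is `T` clear, otherwise move `N` through the head. Finally
`f (nM * trace X) = trace (N * f.mapMatrix X)` (`evTr_scalar_trace`, `evTr_trace`) and
`f.mapMatrix` of the product is the product of the `M t` (`map_list_prod`). -/
theorem evT2 (hω : IsHomCochain r ω) (A B : Matrix (Fin n) (Fin n) (MonoidAlgebra S Γ))
    (hAB : A * B = 1) (hBA : B * A = 1) (ts : List Ty2) (hT : Ty2.T ∈ ts) :
    LM ω (nM * Matrix.trace ((ts.map fun t => ext2 B A (yy2 t)).prod)) = 0 := by
  obtain ⟨K, hK, f, L, _, hL, hf⟩ := exists_syn (fun x : MW Γ => ω x.tot x.marks)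
  have hN1 : f nM * f nM = 0 := by
    rw [← map_mul, hf]
    exact evTr_crit hω.diag
  have hN : Matrix.scalar (Fin n) (f nM) * Matrix.scalar (Fin n) (f nM) = 0 := by
    rw [← map_mul, hN1, map_zero]
  have h0 : LM ω (nM * Matrix.trace ((ts.map fun t => ext2 B A (yy2 t)).prod)) =
      L (f (nM * Matrix.trace ((ts.map fun t => ext2 B A (yy2 t)).prod))) := by
    rw [hL]
    rfl
  have h1 : f.mapMatrix ((ts.map fun t => ext2 B A (yy2 t)).prod) =
      (ts.map (evT2_M (f.mapMatrix (A.map upHom)) (f.mapMatrix (B.map upHom))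
        (Matrix.scalar (Fin n) (f nM)))).prod := by
    rw [map_list_prod, List.map_map]
    congr 1
    refine List.map_congr_left fun t _ => ?_
    exact evT2_map f A B t
  rw [h0, map_mul, evTr_trace, evTr_scalar_trace, h1,
    evT2_prod _ _ _ (evTr_one f B A hBA) hN ts hT, Matrix.trace_zero, map_zero]

end Pool.Agent.Lib.MP_8f66f0_al_Int
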