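import Mathlib
import Pool.Agent.Lib.MP_8f66f0_al_ChernS.Sq
import Pool.Agent.Lib.MP_8f66f0_al_Int.Defs

/-! # Powers of the two polygons as sums over lists of types. -/

set_option autoImplicit false
set_option linter.unusedSectionVars false
set_option linter.unusedVariables false

namespace Pool.Agent.Lib.MP_8f66f0_al_Int

open Pool.Agent.Lib.MP_8f66f0_al_FinQ Pool.Agent.Lib.MP_8f66f0_al_Uni
  Pool.Agent.Lib.MP_8f66f0_al_ChernS

theorem powers_TL_succ (n r k l : ℕ) : TL (n + 1) r k l =
    (TL n r k l).map (· ++ [Ty2.O]) ++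
    ((match r with
      | 0 => []
      | r' + 1 => (TL n r' k l).map (· ++ [Ty2.T])) ++
    ((match k with
      | 0 => []
      | k' + 1 => (TL n r k' l).map (· ++ [Ty2.Al])) ++
    (match l with
      | 0 => []
      | l' + 1 => (TL n r k l').map (· ++ [Ty2.Be])))) := by
  cases r <;> cases k <;> cases l <;> simp only [TL]

theorem powers_mem_succ (n r k l : ℕ) (ts : List Ty2) (h : ts ∈ TL (n + 1) r k l) :
    ∃ ts' ty, ts = ts' ++ [ty] ∧ ((ty = Ty2.O ∧ ts' ∈ TL n r k l) ∨
      (∃ r', r = r' + 1 ∧ ty = Ty2.T ∧ ts' ∈ TL n r' k l) ∨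
      (∃ k', k = k' + 1 ∧ ty = Ty2.Al ∧ ts' ∈ TL n r k' l) ∨
      (∃ l', l = l' + 1 ∧ ty = Ty2.Be ∧ ts' ∈ TL n r k l')) := by
  rw [powers_TL_succ] at h
  simp only [List.mem_append, List.mem_map] at h
  rcases h with ⟨ts', h1, rfl⟩ | h | h | h
  · exact ⟨ts', _, rfl, Or.inl ⟨rfl, h1⟩⟩
  · rcases r with _ | r
    · simp at h
    · simp only [List.mem_map] at h
      obtain ⟨ts', h1, rfl⟩ := h
      exact ⟨ts', _, rfl, Or.inr (Or.inl ⟨r, rfl, rfl, h1⟩)⟩
  · rcases k with _ | k
    · simp at h
    · simp only [List.mem_map] at h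
      obtain ⟨ts', h1, rfl⟩ := h
      exact ⟨ts', _, rfl, Or.inr (Or.inr (Or.inl ⟨k, rfl, rfl, h1⟩))⟩
  · rcases l with _ | l
    · simp at h
    · simp only [List.mem_map] at h
      obtain ⟨ts', h1, rfl⟩ := h
      exact ⟨ts', _, rfl, Or.inr (Or.inr (Or.inr ⟨l, rfl, rfl, h1⟩))⟩

theorem powers_mem (n : ℕ) : ∀ (r k l : ℕ) (ts : List Ty2), ts ∈ TL n r k l →
    ts.length = n ∧ (0 < r → Ty2.T ∈ ts) := by
  induction n with
  | zero =>
    intro r k l ts h
    rcases r with _ | r
    · rcases k with _ | k
      · rcases l with _ | l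
        · rw [TL, List.mem_singleton] at h
          subst h
          exact ⟨rfl, fun h0 => absurd h0 (lt_irrefl 0)⟩
        · simp [TL] at h
      · simp [TL] at h
    · simp [TL] at h
  | succ n ih =>
    intro r k l ts h
    obtain ⟨ts', ty, rfl, h2⟩ := powers_mem_succ n r k l ts h
    rw [List.length_append, List.length_singleton]
    rcases h2 with ⟨h3, h4⟩ | ⟨r', h3, h4, h5⟩ | ⟨k', h3, h4, h5⟩ | ⟨l', h3, h4, h5⟩
    · obtain ⟨h6, h7⟩ := ih r k l ts' h4
      exact ⟨by rw [h6], fun h0 => List.mem_append_left _ (h7 h0)⟩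
    · obtain ⟨h6, h7⟩ := ih r' k l ts' h5
      exact ⟨by rw [h6], fun h0 => List.mem_append_right _ (by rw [h4]; simp)⟩
    · obtain ⟨h6, h7⟩ := ih r k' l ts' h5
      exact ⟨by rw [h6], fun h0 => List.mem_append_left _ (h7 h0)⟩
    · obtain ⟨h6, h7⟩ := ih r k l' ts' h5
      exact ⟨by rw [h6], fun h0 => List.mem_append_left _ (h7 h0)⟩

section powers_ring

variable {K : Type*} [Ring K] (N : ℕ → K)

private def powers_al (j : ℕ) : K := N (2 * j) * N (2 * j + 2)

private def powers_be (j : ℕ) : K := N (2 * j) * N (2 * j + 1) + N (2 * j + 1) * N (2 * j + 2)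

private def powers_ta (j : ℕ) : K := N (2 * j) * N (2 * j + 1) * N (2 * j + 2)

private theorem powers_pg_al (n : ℕ) :
    pg (fun j => N (2 * j)) n = ∑ j ∈ Finset.range n, powers_al N j := rfl

private theorem powers_pg_be (n : ℕ) : pg N (2 * n) = ∑ j ∈ Finset.range n, powers_be N j := by
  unfold pg powers_be
  induction n with
  | zero => simp
  | succ n ih =>
    rw [Finset.sum_range_succ, ← ih, show 2 * (n + 1) = 2 * n + 1 + 1 by ring,
      Finset.sum_range_succ, Finset.sum_range_succ, add_assoc]

private theorem powers_tri (n : ℕ) : tri N n = ∑ j ∈ Finset.range n, powers_ta N j := rfl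

variable (anti : ∀ a b, N a * N b = - (N b * N a)) (sq : ∀ a, N a * N a = 0)

include anti in
private theorem powers_pair_comm (a b c : ℕ) : Commute (N a * N b) (N c) := by
  show N a * N b * N c = N c * (N a * N b)
  rw [mul_assoc, anti b c, mul_neg, ← mul_assoc, anti a c, neg_mul, neg_neg, mul_assoc]

include anti in
private theorem powers_al_comm (j c : ℕ) : Commute (powers_al N j) (N c) :=
  powers_pair_comm N anti _ _ _

include anti in
private theorem powers_be_comm (j c : ℕ) : Commute (powers_be N j) (N c) :=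
  (powers_pair_comm N anti _ _ _).add_left (powers_pair_comm N anti _ _ _)

private theorem powers_comm_al (x : K) (hx : ∀ c, Commute x (N c)) (j : ℕ) :
    Commute x (powers_al N j) := (hx _).mul_right (hx _)

private theorem powers_comm_be (x : K) (hx : ∀ c, Commute x (N c)) (j : ℕ) :
    Commute x (powers_be N j) :=
  ((hx _).mul_right (hx _)).add_right ((hx _).mul_right (hx _))

private theorem powers_comm_ta (x : K) (hx : ∀ c, Commute x (N c)) (j : ℕ) :
    Commute x (powers_ta N j) := ((hx _).mul_right (hx _)).mul_right (hx _)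

include sq in
private theorem powers_q1 (a b d : ℕ) : N a * N b * (N b * N d) = 0 := by
  rw [mul_assoc, ← mul_assoc (N b), sq, zero_mul, mul_zero]

include anti sq in
private theorem powers_q2 (a b d : ℕ) : N a * N b * (N a * N d) = 0 := by
  rw [anti a b, neg_mul, powers_q1 N sq, neg_zero]

include anti sq in
private theorem powers_q3 (a b d : ℕ) : N a * N b * (N d * N b) = 0 := by
  rw [anti d b, mul_neg, powers_q1 N sq, neg_zero]

include anti sq in
private theorem powers_q4 (a b d : ℕ) : N a * N b * (N d * N a) = 0 := by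
  rw [anti a b, neg_mul, powers_q3 N anti sq, neg_zero]

include anti sq in
private theorem powers_al_al (j : ℕ) : powers_al N j * powers_al N j = 0 := by
  unfold powers_al
  exact powers_q2 N anti sq _ _ _

include anti sq in
private theorem powers_be_be (j : ℕ) : powers_be N j * powers_be N j = 0 := by
  unfold powers_be
  simp only [add_mul, mul_add, powers_q1 N sq, powers_q2 N anti sq,
    powers_q4 N anti sq, add_zero]

include anti sq in
private theorem powers_al_be (j : ℕ) : powers_al N j * powers_be N j = 0 := by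
  unfold powers_al powers_be
  simp only [mul_add, powers_q2 N anti sq, powers_q3 N anti sq, add_zero]

include anti sq in
private theorem powers_ta_al (j : ℕ) : powers_ta N j * powers_al N j = 0 := by
  unfold powers_ta powers_al
  rw [mul_assoc (N (2 * j)) (N (2 * j + 1)), mul_assoc, powers_q3 N anti sq, mul_zero]

include anti sq in
private theorem powers_ta_be (j : ℕ) : powers_ta N j * powers_be N j = 0 := by
  unfold powers_ta powers_be
  have h2 : N (2 * j) * N (2 * j + 1) * N (2 * j + 2) * (N (2 * j) * N (2 * j + 1)) = 0 := by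
    rw [mul_assoc (N (2 * j)) (N (2 * j + 1)), mul_assoc, powers_q4 N anti sq, mul_zero]
  have h3 : N (2 * j) * N (2 * j + 1) * N (2 * j + 2) * (N (2 * j + 1) * N (2 * j + 2)) = 0 := by
    rw [mul_assoc (N (2 * j)) (N (2 * j + 1)), mul_assoc, powers_q2 N anti sq, mul_zero]
  rw [mul_add, h2, h3, add_zero]

private theorem powers_add_pow (s g : K) (hc : s * g = g * s) (hg : g * g = 0) (m : ℕ) :
    (s + g) ^ m = s ^ m + m • (s ^ (m - 1) * g) := by
  rcases m with _ | m
  · simp
  · rw [sq_add_pow s g hc hg m, nsmul_eq_mul, Nat.add_sub_cancel]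

private theorem powers_expand (A a B b : K) (hAa : Commute A a) (hBa : Commute B a)
    (hBb : Commute B b) (haa : a * a = 0) (hbb : b * b = 0) (hab : a * b = 0) (k l : ℕ) :
    (A + a) ^ k * (B + b) ^ l =
      A ^ k * B ^ l + ((k • (A ^ (k - 1) * B ^ l)) * a + (l • (A ^ k * B ^ (l - 1))) * b) := by
  rw [powers_add_pow A a hAa haa, powers_add_pow B b hBb hbb]
  have h1 : Commute (B ^ l) a := hBa.pow_left l
  have h2 : Commute (B ^ (l - 1)) a := hBa.pow_left (l - 1)
  have e1 : A ^ (k - 1) * a * B ^ l = A ^ (k - 1) * B ^ l * a := by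
    rw [mul_assoc, ← h1.eq, mul_assoc]
  have e2 : A ^ (k - 1) * a * (B ^ (l - 1) * b) = 0 := by
    rw [mul_assoc, ← mul_assoc a, ← h2.eq, mul_assoc (B ^ (l - 1)), hab, mul_zero, mul_zero]
  rw [add_mul, mul_add, mul_add, smul_mul_assoc, smul_mul_assoc, mul_smul_comm, mul_smul_comm,
    e1, e2, smul_zero, smul_zero, add_zero, smul_mul_assoc, smul_mul_assoc, ← mul_assoc (A ^ k)]
  abel

theorem powers_app (ts : List Ty2) (ty : Ty2) :
    zprod N (ts ++ [ty]) = zprod N ts *
      zz2 ty (N (2 * ts.length)) (N (2 * ts.length + 1)) (N (2 * ts.length + 2)) := by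
  unfold zprod
  rw [List.length_append, List.length_singleton, List.range_succ, List.map_append,
    List.prod_append, List.map_singleton, List.prod_singleton]
  congr 1
  · congr 1
    refine List.map_congr_left fun j hj => ?_
    rw [List.mem_range] at hj
    rw [List.getD_append _ _ _ _ hj]
  · rw [List.getD_append_right _ _ _ _ le_rfl, Nat.sub_self]
    rfl

private def powers_E (r n k l : ℕ) : K := ((TL n r k l).map (zprod N)).sum

private theorem powers_map (ty : Ty2) (n r k l : ℕ) :
    (((TL n r k l).map (· ++ [ty])).map (zprod N)).sum =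
      powers_E N r n k l * zz2 ty (N (2 * n)) (N (2 * n + 1)) (N (2 * n + 2)) := by
  unfold powers_E
  rw [List.map_map, ← List.sum_map_mul_right]
  congr 1
  refine List.map_congr_left fun ts hts => ?_
  show zprod N (ts ++ [ty]) = _
  rw [powers_app, (powers_mem n r k l ts hts).1]

private theorem powers_E0 (n k l : ℕ) :
    powers_E N 0 (n + 1) k l = powers_E N 0 n k l +
      ((if k = 0 then 0 else powers_E N 0 n (k - 1) l * powers_al N n) +
        (if l = 0 then 0 else powers_E N 0 n k (l - 1) * powers_be N n)) := by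
  have hO := powers_map N Ty2.O n 0 k l
  have h0 : powers_E N 0 (n + 1) k l = ((TL (n + 1) 0 k l).map (zprod N)).sum := rfl
  rw [h0, powers_TL_succ, List.map_append, List.sum_append, hO, List.map_append, List.sum_append,
    List.map_append, List.sum_append]
  simp only [zz2, mul_one, List.map_nil, List.sum_nil, zero_add]
  congr 1
  congr 1
  · rcases k with _ | k
    · simp
    · simp only [Nat.add_sub_cancel, Nat.succ_ne_zero, if_false]
      exact powers_map N Ty2.Al n 0 k l
  · rcases l with _ | l
    · simp
    · simp only [Nat.add_sub_cancel, Nat.succ_ne_zero, if_false]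
      exact powers_map N Ty2.Be n 0 k l

private theorem powers_E1 (n k l : ℕ) :
    powers_E N 1 (n + 1) k l = powers_E N 1 n k l + (powers_E N 0 n k l * powers_ta N n +
      ((if k = 0 then 0 else powers_E N 1 n (k - 1) l * powers_al N n) +
        (if l = 0 then 0 else powers_E N 1 n k (l - 1) * powers_be N n))) := by
  have hO := powers_map N Ty2.O n 1 k l
  have hT := powers_map N Ty2.T n 0 k l
  have h0 : powers_E N 1 (n + 1) k l = ((TL (n + 1) 1 k l).map (zprod N)).sum := rfl
  rw [h0, powers_TL_succ, List.map_append, List.sum_append, hO, List.map_append, List.sum_append,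
    List.map_append, List.sum_append]
  simp only [zz2, mul_one]
  congr 1
  congr 1
  congr 1
  · rcases k with _ | k
    · simp
    · simp only [Nat.add_sub_cancel, Nat.succ_ne_zero, if_false]
      exact powers_map N Ty2.Al n 1 k l
  · rcases l with _ | l
    · simp
    · simp only [Nat.add_sub_cancel, Nat.succ_ne_zero, if_false]
      exact powers_map N Ty2.Be n 1 k l

open Nat in
private theorem powers_fack (k l : ℕ) (X a : K) :
    (k ! * l !) • (if k = 0 then 0 else X * a) = (k • (((k - 1)! * l !) • X)) * a := by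
  rcases k with _ | k
  · simp
  · rw [if_neg (Nat.succ_ne_zero k), Nat.add_sub_cancel, smul_smul, smul_mul_assoc,
      Nat.factorial_succ, mul_assoc]

open Nat in
private theorem powers_facl (k l : ℕ) (X a : K) :
    (k ! * l !) • (if l = 0 then 0 else X * a) = (l • ((k ! * (l - 1)!) • X)) * a := by
  rcases l with _ | l
  · simp
  · rw [if_neg (Nat.succ_ne_zero l), Nat.add_sub_cancel, smul_smul, smul_mul_assoc,
      Nat.factorial_succ]
    congr 1
    ring

open Nat in
private theorem powers_pow0 (anti : ∀ a b, N a * N b = - (N b * N a))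
    (sq : ∀ a, N a * N a = 0) (n : ℕ) : ∀ k l : ℕ,
    (∑ j ∈ Finset.range n, powers_al N j) ^ k * (∑ j ∈ Finset.range n, powers_be N j) ^ l =
      (k ! * l !) • powers_E N 0 n k l := by
  induction n with
  | zero =>
    intro k l
    rcases k with _ | k
    · rcases l with _ | l
      · simp [powers_E, TL, zprod]
      · simp [powers_E, TL]
    · simp [powers_E, TL]
  | succ n ih =>
    intro k l
    have hal : ∀ i j, Commute (powers_al N i) (powers_al N j) := fun i j =>
      powers_comm_al N _ (powers_al_comm N anti i) j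
    have hbl : ∀ i j, Commute (powers_be N i) (powers_al N j) := fun i j =>
      powers_comm_al N _ (powers_be_comm N anti i) j
    have hbb : ∀ i j, Commute (powers_be N i) (powers_be N j) := fun i j =>
      powers_comm_be N _ (powers_be_comm N anti i) j
    rw [Finset.sum_range_succ, Finset.sum_range_succ,
      powers_expand _ (powers_al N n) _ (powers_be N n)
        (Commute.sum_left _ _ _ fun i _ => hal i n) (Commute.sum_left _ _ _ fun i _ => hbl i n)
        (Commute.sum_left _ _ _ fun i _ => hbb i n) (powers_al_al N anti sq n)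
        (powers_be_be N anti sq n) (powers_al_be N anti sq n) k l,
      ih k l, ih (k - 1) l, ih k (l - 1), powers_E0, smul_add, smul_add, powers_fack, powers_facl]

end powers_ring

open Nat in
/-- PROOF. Put `al j = N (2j) * N (2j+2)`, `be j = N (2j) * N (2j+1) + N (2j+1) * N (2j+2)`,
`ta j = N (2j) * N (2j+1) * N (2j+2)`. Then `pg (fun j => N (2 * j)) n = Σ_{j<n} al j`,
`pg N (2 n) = Σ_{j<n} be j` (as `partA_pg_two` in `ChernS/PartA.lean`), `tri N n = Σ_{j<n} ta j`. Products of two
letters commute with all letters (`anti`), so `al`, `be` commute with everything here, and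
`al j * al j = be j * be j = al j * be j = ta j * al j = ta j * be j = 0` (`anti`, `sq`; as `partA_ga_sq`,
`partA_ta_zero`). For lists `ts` of length `n`: `zprod N (ts ++ [t]) = zprod N ts * zz2 t (N (2n)) (N (2n+1)) (N (2n+2))`;
all lists in `TL n r k l` have length `n`. Let `E r n k l` be the sum of `zprod N ts` over `ts ∈ TL n r k l`. The
recursion of `TL` gives `E 0 (n+1) k l = E 0 n k l + E 0 n (k-1) l * al n + E 0 n k (l-1) * be n` (terms with
`k - 1`, `l - 1` only for `k > 0`, `l > 0`) and
`E 1 (n+1) k l = E 1 n k l + E 0 n k l * ta n + E 1 n (k-1) l * al n + E 1 n k (l-1) * be n`.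
First (a): `(Σ_{j<n} al j)^k * (Σ_{j<n} be j)^l = (k! l!) • E 0 n k l` by induction on `n` for all `k, l`:
`(s + al n)^k = s^k + k s^(k-1) al n` (`sq_add_pow` in `ChernS/Sq.lean`), the same for `be`, and `al n * be n = 0`.
Then the statement, by induction on `n` for all `k, l`: `tri N (n+1) = tri N n + ta n`, expand in the same way;
the products of `ta n` with `al n` and `be n` vanish, and `ta n * (s^k * t^l) = (s^k * t^l) * ta n`,
to which (a) applies. -/
theorem tri_pow {K : Type*} [Ring K] (N : ℕ → K) (anti : ∀ a b, N a * N b = - (N b * N a))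
    (sq : ∀ a, N a * N a = 0) (n k l : ℕ) :
    tri N n * ((pg (fun j => N (2 * j)) n) ^ k * (pg N (2 * n)) ^ l) =
      (k ! * l !) • ((TL n 1 k l).map (zprod N)).sum := by
  have hal : ∀ i j, Commute (powers_al N i) (powers_al N j) := fun i j =>
    powers_comm_al N _ (powers_al_comm N anti i) j
  have hbl : ∀ i j, Commute (powers_be N i) (powers_al N j) := fun i j =>
    powers_comm_al N _ (powers_be_comm N anti i) j
  have hbb : ∀ i j, Commute (powers_be N i) (powers_be N j) := fun i j =>
    powers_comm_be N _ (powers_be_comm N anti i) j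
  have hat : ∀ i j, Commute (powers_al N i) (powers_ta N j) := fun i j =>
    powers_comm_ta N _ (powers_al_comm N anti i) j
  have hbt : ∀ i j, Commute (powers_be N i) (powers_ta N j) := fun i j =>
    powers_comm_ta N _ (powers_be_comm N anti i) j
  show _ = (k ! * l !) • powers_E N 1 n k l
  rw [powers_pg_al, powers_pg_be, powers_tri]
  revert k l
  induction n with
  | zero =>
    intro k l
    simp [powers_E, TL]
  | succ n ih =>
    intro k l
    have ht : ∀ i j : ℕ, powers_ta N n * ((∑ j ∈ Finset.range n, powers_al N j) ^ i *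
        (∑ j ∈ Finset.range n, powers_be N j) ^ j) =
        ((∑ j ∈ Finset.range n, powers_al N j) ^ i *
        (∑ j ∈ Finset.range n, powers_be N j) ^ j) * powers_ta N n := by
      intro i j
      have h1 : Commute (∑ j ∈ Finset.range n, powers_al N j) (powers_ta N n) :=
        Commute.sum_left _ _ _ fun i _ => hat i n
      have h2 : Commute (∑ j ∈ Finset.range n, powers_be N j) (powers_ta N n) :=
        Commute.sum_left _ _ _ fun i _ => hbt i n
      exact ((h1.pow_left i).mul_left (h2.pow_left j)).symm.eq
    have hta : ∀ i j m : ℕ, powers_ta N n * ((m • ((∑ j ∈ Finset.range n, powers_al N j) ^ i *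
        (∑ j ∈ Finset.range n, powers_be N j) ^ j)) * powers_al N n) = 0 := by
      intro i j m
      rw [← mul_assoc, mul_smul_comm, ht, smul_mul_assoc, mul_assoc, powers_ta_al N anti sq,
        mul_zero, smul_zero]
    have htb : ∀ i j m : ℕ, powers_ta N n * ((m • ((∑ j ∈ Finset.range n, powers_al N j) ^ i *
        (∑ j ∈ Finset.range n, powers_be N j) ^ j)) * powers_be N n) = 0 := by
      intro i j m
      rw [← mul_assoc, mul_smul_comm, ht, smul_mul_assoc, mul_assoc, powers_ta_be N anti sq,
        mul_zero, smul_zero]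
    have hTx : ∀ (i j m : ℕ) (x : K), (∑ j ∈ Finset.range n, powers_ta N j) *
        ((m • ((∑ j ∈ Finset.range n, powers_al N j) ^ i *
        (∑ j ∈ Finset.range n, powers_be N j) ^ j)) * x) =
        (m • ((i ! * j !) • powers_E N 1 n i j)) * x := by
      intro i j m x
      rw [← mul_assoc, mul_smul_comm, ih i j]
    rw [Finset.sum_range_succ (fun j => powers_al N j), Finset.sum_range_succ (fun j => powers_be N j),
      powers_expand _ (powers_al N n) _ (powers_be N n)
        (Commute.sum_left _ _ _ fun i _ => hal i n) (Commute.sum_left _ _ _ fun i _ => hbl i n)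
        (Commute.sum_left _ _ _ fun i _ => hbb i n) (powers_al_al N anti sq n)
        (powers_be_be N anti sq n) (powers_al_be N anti sq n) k l,
      Finset.sum_range_succ, add_mul, mul_add, mul_add, mul_add, mul_add, hta, htb, hTx, hTx, ht,
      ih k l, powers_pow0 N anti sq n k l, powers_E1, smul_add, smul_add, smul_add, powers_fack,
      powers_facl, smul_mul_assoc (k ! * l !) (powers_E N 0 n k l)]
    abel

/-- PROOF. Induction on `n` (for all `r k l`): all lists in `TL n r k l` have length `n`, and contain `T` if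
`0 < r`. -/
theorem TL_mem (n r k l : ℕ) (hr : 0 < r) (ts : List Ty2) (h : ts ∈ TL n r k l) :
    ts.length = n ∧ Ty2.T ∈ ts := by
  obtain ⟨h1, h2⟩ := powers_mem n r k l ts h
  exact ⟨h1, h2 hr⟩

end Pool.Agent.Lib.MP_8f66f0_al_Int
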