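import Mathlib
import Pool.Agent.Lib.MP_8f66f0_al_ChernS.Syn
import Pool.Agent.Lib.MP_8f66f0_al_Int.Bridge2
import Pool.Agent.Lib.MP_8f66f0_al_Int.EvT2
import Pool.Agent.Lib.MP_8f66f0_al_Int.Powers

/-! # The sum of the second part of `F` vanishes, with values in any ring. -/

set_option autoImplicit false
set_option linter.unusedSectionVars false
set_option linter.unusedVariables false

namespace Pool.Agent.Lib.MP_8f66f0_al_Int

open Pool.Agent.Lib.MP_8f66f0_al_FinQ Pool.Agent.Lib.MP_8f66f0_al_Uni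
  Pool.Agent.Lib.MP_8f66f0_al_ChernS

universe u v

/-- `exists_super` with the ring in the universe of the group -/
private theorem partA2_super {Γ : Type u} [Group Γ] {S : Type v} [CommRing S] {r : ℕ}
    {ω : Γ → List Γ → S} (hω : IsHomCocycle r ω) (c : Γ) :
    ∃ (K : Type (max u v)) (_ : Ring K) (f : MonoidAlgebra S (FreeMonoid Γ) →+* K) (α : K →+* K)
      (D : K →+ K) (L : K →+ S) (deg : ℕ → AddSubgroup K), Super r ω c K f α D L deg :=
  exists_super hω c

variable {Γ : Type*} [Group Γ] {S : Type*} [CommRing S] {ω : Γ → List Γ → S} {n m : ℕ}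

private theorem partA2_zz {K K' : Type*} [Ring K] [Ring K'] (f : K →+* K') (t : Ty2) (a b c : K) :
    f (zz2 t a b c) = zz2 t (f a) (f b) (f c) := by
  cases t with
  | O => exact map_one f
  | Al => exact map_mul f a c
  | Be => show f (a * b + b * c) = _; rw [map_add, map_mul, map_mul]; rfl
  | T => show f (a * b * c) = _; rw [map_mul, map_mul]; rfl

private theorem partA2_zprod {K K' : Type*} [Ring K] [Ring K'] (f : K →+* K') (N : ℕ → K)
    (ts : List Ty2) : f (zprod N ts) = zprod (fun j => f (N j)) ts := by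
  unfold zprod
  rw [map_list_prod, List.map_map]
  congr 1
  refine List.map_congr_left fun j _ => ?_
  rw [Function.comp_apply, partA2_zz]

private theorem partA2_finsum {β : Type*} (B A : Matrix (Fin n) (Fin n) (MonoidAlgebra S Γ))
    (Q : ℕ) (t : Finset β) (F : β → List Γ → S) :
    wsum B A Q (fun w => ∑ a ∈ t, F a w) = ∑ a ∈ t, wsum B A Q (F a) := by
  classical
  induction t using Finset.induction_on with
  | empty =>
    have h := wsum_smul B A Q 0 (fun _ => (0 : S))
    simpa using h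
  | insert a t ha ih =>
    rw [Finset.sum_insert ha, ← ih, ← wsum_add]
    refine wsum_congr B A Q fun w _ => ?_
    rw [Finset.sum_insert ha]

private theorem partA2_listsum {β : Type*} (B A : Matrix (Fin n) (Fin n) (MonoidAlgebra S Γ))
    (Q : ℕ) (l : List β) (F : β → List Γ → S) :
    wsum B A Q (fun w => (l.map fun a => F a w).sum) = (l.map fun a => wsum B A Q (F a)).sum := by
  induction l with
  | nil =>
    have h := wsum_smul B A Q 0 (fun _ => (0 : S))
    simpa using h
  | cons a l ih =>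
    rw [List.map_cons, List.sum_cons, ← ih, ← wsum_add]
    refine wsum_congr B A Q fun w _ => ?_
    rw [List.map_cons, List.sum_cons]

open Nat in
private theorem partA2_word (hω : IsHomCocycle (2 * (m + 1)) ω) (k l Q : ℕ)
    (e : List Γ) (he : e.length = 2 * Q) :
    Lc ω e.prod (nn (vx e 0) * (tri (fun j => nn (vx e j)) Q *
      ((pg (fun j => nn (vx e (2 * j))) Q) ^ k * (pg (fun j => nn (vx e j)) (2 * Q)) ^ l))) =
      ((k ! * l ! : ℕ) : S) * ((TL Q 1 k l).map fun ts =>
        LM ω (nM * pp (ts.map (yy2 (Γ := Γ) (S := S))) e)).sum := by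
  obtain ⟨K, _, f, α, D, L, deg, hS⟩ := partA2_super hω e.prod
  set N : ℕ → K := fun j => f (nn (vx e j)) with hN
  have anti : ∀ a b, N a * N b = - (N b * N a) := fun a b => hS.anti _ _
  have sq : ∀ a, N a * N a = 0 := fun a => hS.sq _
  rw [← hS.L_f]
  have e1 : f (nn (vx e 0) * (tri (fun j => nn (vx e j)) Q *
      ((pg (fun j => nn (vx e (2 * j))) Q) ^ k * (pg (fun j => nn (vx e j)) (2 * Q)) ^ l))) =
      N 0 * (tri N Q * ((pg (fun j => N (2 * j)) Q) ^ k * (pg N (2 * Q)) ^ l)) := by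
    rw [map_mul, map_mul, map_mul, map_pow, map_pow, map_pg, map_pg, map_tri]
  rw [e1, tri_pow N anti sq Q k l, mul_smul_comm, map_nsmul, nsmul_eq_mul]
  congr 1
  rw [← List.sum_map_mul_left, map_list_sum, List.map_map]
  congr 1
  refine List.map_congr_left fun ts hts => ?_
  obtain ⟨hlen, -⟩ := TL_mem Q 1 k l Nat.one_pos ts hts
  have he' : e.length = 2 * ts.length := by rw [hlen, he]
  rw [bridge2 (ω := ω) ts e he', Function.comp_apply]
  have e3 : N 0 = f (nn 1) := by
    show f (nn (vx e 0)) = _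
    rw [vx_zero]
  rw [e3, ← partA2_zprod f (fun j => nn (vx e j)) ts, ← map_mul, hS.L_f, zp2_eq ts e he']

/-- PROOF. `partA` in `MP_8f66f0_al_ChernS/PartA.lean` without the hypothesis `Reg S m`. Unfold `hmt`: the
function is the sum over `k < m` of `q_k(e) = Lc ω e.prod (nn (vx e 0) * (tri * (pg0 ^ k * pg ^ (m - 1 - k))))`. In the
super ring of `pWords_super hω e.prod` (or `exists_super`), with `N j = f (nn (vx e j))`, `tri_pow` gives
`tri * (pg0 ^ k * pg ^ (m - 1 - k)) = (k! (m-1-k)!) • Σ_{ts ∈ TL Q 1 k (m-1-k)} zprod N ts`, and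
`f` maps `zprod (fun j => nn (vx e j)) ts` to `zprod N ts` (`f` is a ring homomorphism), which is
`f (zp2 1 ts e)` by `zp2_eq` (the lengths: `TL_mem`); `nn (vx e 0) = nn 1` (`vx_zero`). So
`q_k(e) = (k! (m-1-k)!) • Σ_ts Lc ω e.prod (nn 1 * zp2 1 ts e) = (k! (m-1-k)!) • Σ_ts LM ω (nM * pp (ts.map yy2) e)` by
`bridge2`. The sum over `e` of the last one vanishes for each `ts` by `wsum_pp` (as in `partA_s`) and `evT2`
(`T ∈ ts` by `TL_mem`). Use `wsum_congr`, `wsum_smul`, `wsum_add`, and the sum of `wsum` over a list (induction). -/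
theorem partA2 (hω : IsHomCocycle (2 * (m + 1)) ω)
    (A B : Matrix (Fin n) (Fin n) (MonoidAlgebra S Γ)) (hAB : A * B = 1) (hBA : B * A = 1)
    (Q : ℕ) (hQ : 0 < Q) :
    wsum B A Q (fun e => Lc ω e.prod (nn (vx e 0) * hmt m Q fun j => nn (vx e j))) = 0 := by
  set q : ℕ → List Γ → S := fun k e => Lc ω e.prod (nn (vx e 0) * (tri (fun j => nn (vx e j)) Q *
    ((pg (fun j => nn (vx e (2 * j))) Q) ^ k * (pg (fun j => nn (vx e j)) (2 * Q)) ^ (m - 1 - k))))
    with hq
  have e1 : wsum B A Q (fun e => Lc ω e.prod (nn (vx e 0) * hmt m Q fun j => nn (vx e j))) =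
      ∑ k ∈ Finset.range m, wsum B A Q (q k) := by
    rw [← partA2_finsum]
    refine wsum_congr B A Q fun e _ => ?_
    unfold hmt
    rw [Finset.mul_sum, Finset.mul_sum, map_sum]
  rw [e1]
  refine Finset.sum_eq_zero fun k _ => ?_
  rw [hq, wsum_congr B A Q (fun e he => partA2_word hω k (m - 1 - k) Q e he), wsum_smul,
    partA2_listsum, List.sum_eq_zero, mul_zero]
  intro x hx
  rw [List.mem_map] at hx
  obtain ⟨ts, hts, rfl⟩ := hx
  obtain ⟨hlen, hT⟩ := TL_mem Q 1 k (m - 1 - k) Nat.one_pos ts hts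
  have e2 : wsum B A Q (fun e => LM ω (nM * pp (ts.map (yy2 (Γ := Γ) (S := S))) e)) =
      wsum B A (ts.map (yy2 (Γ := Γ) (S := S))).length
        (fun e => LM ω (nM * pp (ts.map (yy2 (Γ := Γ) (S := S))) e)) := by
    rw [List.length_map, hlen]
  rw [e2, wsum_pp A B (LM ω) (fun s x => lin_smul _ s x) nM (ts.map (yy2 (Γ := Γ) (S := S))),
    List.map_map]
  exact evT2 hω.toIsHomCochain A B hAB hBA ts hT

end Pool.Agent.Lib.MP_8f66f0_al_Int
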