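import Mathlib
import Pool.Agent.Lib.MP_8f66f0_al_ChernS.ClassQ
import Pool.Agent.Lib.MP_8f66f0_al_Int.PartA2

/-! # The sum of `F` over all words and the divisibility at a class which is not a `p`-th power, with
values in any ring. -/

set_option autoImplicit false
set_option linter.unusedSectionVars false
set_option linter.unusedVariables false

namespace Pool.Agent.Lib.MP_8f66f0_al_Int

open Pool.Agent.Lib.MP_8f66f0_al_FinQ Pool.Agent.Lib.MP_8f66f0_al_Uni
  Pool.Agent.Lib.MP_8f66f0_al_ChernS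

variable {Γ : Type*} [Group Γ] {S : Type*} [CommRing S] {ω : Γ → List Γ → S} {n m : ℕ}

/-- PROOF. Copy of `wsum_FF` in `MP_8f66f0_al_ChernS/Eval.lean` with `partA2` instead of `partA`. -/
theorem wsum_FF2 (hω : IsHomCocycle (2 * (m + 1)) ω)
    (A B : Matrix (Fin n) (Fin n) (MonoidAlgebra S Γ)) (hAB : A * B = 1) (hBA : B * A = 1)
    (Q : ℕ) (hQ : 0 < Q) :
    wsum B A Q (FF ω m Q) = ((Q - 1).descFactorial m : S) * chern m A B ω := by
  have h1 : wsum B A Q (FF ω m Q) =
      wsum B A Q (fun e => Lc ω e.prod (exE m (2 * Q) fun j => nn (vx e j))) +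
      (wsum B A Q (fun e => Lc ω e.prod (nn (vx e 1) * hmt m Q fun j => nn (vx e (j + 1)))) +
      (-1) * wsum B A Q (fun e => Lc ω e.prod (nn (vx e 0) * hmt m Q fun j => nn (vx e j)))) := by
    rw [← wsum_smul, ← wsum_add, ← wsum_add]
    congr 1
    funext e
    unfold FF exF
    rw [map_sub, map_add]
    ring
  have h2 : wsum B A Q (fun e => Lc ω e.prod (nn (vx e 1) * hmt m Q fun j => nn (vx e (j + 1)))) =
      0 := by
    rw [← partA2 (ω := ω) hω B A hBA hAB Q hQ, ← wsum_rotate_one B A Q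
      (fun e => Lc ω e.prod (nn (vx e 0) * hmt m Q fun j => nn (vx e j)))]
    refine wsum_congr B A Q fun e he => ?_
    cases e with
    | nil =>
      simp only [List.length_nil] at he
      omega
    | cons a e =>
      rw [prod_rotate_one]
      have h3 : (nn (vx (a :: e) 1) : MonoidAlgebra S (FreeMonoid Γ)) *
          (hmt m Q fun j => nn (vx (a :: e) (j + 1))) =
          MP_8f66f0_al_ChernS.trans a (nn (vx ((a :: e).rotate 1) 0) *
            hmt m Q fun j => nn (vx ((a :: e).rotate 1) j)) := by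
        rw [map_mul, map_hmt, trans_nn]
        congr 2
        · rw [vx_rotate_one, mul_inv_cancel_left]
        · funext j
          rw [trans_nn, vx_rotate_one, mul_inv_cancel_left]
      have h4 := Lc_trans hω.toIsHomCochain a (a⁻¹ * (a :: e).prod * a)
        (nn (vx ((a :: e).rotate 1) 0) * hmt m Q fun j => nn (vx ((a :: e).rotate 1) j))
      rw [← h4, ← h3]
      congr 2
      group
  rw [h1, h2, partA2 hω A B hAB hBA Q hQ, partB hω A B hAB hBA Q hQ]
  ring

/-- PROOF. Copy of `classQ_dvd` in `MP_8f66f0_al_ChernS/ClassQ.lean` with `j = 0` and `wsum_FF2` instead of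
`wsum_FF`. -/
theorem classQ2_dvd (hω : IsHomCocycle (2 * (m + 1)) ω)
    (A B : Matrix (Fin n) (Fin n) (MonoidAlgebra S Γ)) (hAB : A * B = 1) (hBA : B * A = 1)
    {p : ℕ} (hp : p.Prime) (K : ℕ) (hK : 0 < K) (c0 : Γ)
    (hc : ∀ v : Γ, ¬ IsConj c0 (v ^ p))
    (hsupp : ∀ c u, ¬ IsConj c0 c → ω c u = 0) :
    ((p ^ K : ℕ) : S) ∣ ((p ^ K - 1).descFactorial m : S) * chern m A B ω := by
  have hQpos : 0 < p ^ K := pow_pos hp.pos _
  obtain ⟨θ, hθ⟩ := exists_ph (fun x : List Γ => x.rotate 1)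
    (fun x => x.length = p ^ K ∧ (IsConj c0 x.prod ∧ ∀ i, x.rotate i = x → p ^ K ∣ i))
    (p ^ K) (p ^ K) hQpos hQpos dvd_rfl
    (fun x hx => ⟨by rw [List.length_rotate]; exact hx.1,
      hx.2.1.trans (phase_isConj_rotate x 1), fun i hi => hx.2.2 i
        ((classQ_rotate_iff 1 x i).1 hi)⟩)
    (fun x hx => by
      rw [classQ_iter, one_mul, ← hx.1, List.rotate_length])
    (fun x hx i hi => by
      rw [classQ_iter, one_mul] at hi
      exact hx.2.2 i hi)
  obtain ⟨Θ, hΘ⟩ := exists_ph (fun x : List Γ => x.rotate 2)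
    (fun e => e.length = 2 * p ^ K ∧
      (IsConj c0 e.prod ∧ ∀ i, e.rotate (2 * i) = e → p ^ K ∣ i))
    (p ^ K) (p ^ K) hQpos hQpos dvd_rfl
    (fun x hx => ⟨by rw [List.length_rotate]; exact hx.1,
      hx.2.1.trans (phase_isConj_rotate x 2), fun i hi => hx.2.2 i
        ((classQ_rotate_iff 2 x (2 * i)).1 hi)⟩)
    (fun x hx => by
      rw [classQ_iter, ← hx.1, List.rotate_length])
    (fun x hx i hi => by
      rw [classQ_iter] at hi
      exact hx.2.2 i hi)
  -- a word with a product conjugate to `c0` has no smaller period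
  have hgood : ∀ x : List Γ, x.length = p ^ K →
      IsConj c0 x.prod → ∀ i, x.rotate i = x → p ^ K ∣ i := by
    intro x hx hxc i hi
    by_contra hpi
    obtain ⟨l, hl, hl1, hl2⟩ := stab_pow hp 0 K x (by rw [add_zero]; exact hx) i hi hpi
    refine hc ((x.take (p ^ l)).prod ^ (p ^ (K - l - 1))) ?_
    rw [← pow_mul, ← pow_succ, show K - l - 1 + 1 = K + 0 - l by omega, ← hl2]
    exact hxc
  have hcore := core A B hAB hBA (p ^ K) (p ^ K) 1 hQpos
    Nat.one_pos (mul_one _).symm Set.univ (fun _ _ _ _ => Set.mem_univ _)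
    (fun _ _ _ _ => Set.mem_univ _) (eps ω m) (FF ω m (p ^ K))
    (fun x hx => by
      have := eps_sum hω m x
      rwa [hx] at this)
    (fun e he => FF_diff hω m _ e he)
    (fun x => IsConj c0 x.prod ∧ ∀ i, x.rotate i = x → p ^ K ∣ i)
    (fun e => IsConj c0 e.prod ∧ ∀ i, e.rotate (2 * i) = e → p ^ K ∣ i) θ Θ
    (fun x _ hx => ⟨hx.1.trans (phase_isConj_rotate x 1), fun i hi => hx.2 i
      ((classQ_rotate_iff 1 x i).1 hi)⟩)
    (fun e _ he => ⟨he.1.trans (phase_isConj_rotate e 2), fun i hi => he.2 i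
      ((classQ_rotate_iff 2 e (2 * i)).1 hi)⟩)
    hθ hΘ
    (fun x hx _ hX => by
      by_cases h : IsConj c0 x.prod
      · exact absurd ⟨h, hgood x hx h⟩ hX
      · exact classQ_Lc_zero _ (fun u => hsupp _ u h) _)
    (fun e he _ hY => by
      by_cases h : IsConj c0 e.prod
      · refine absurd ⟨h, fun i hi => ?_⟩ hY
        refine hgood (d0 e) (MP_8f66f0_al_ChernS.length_d0 _ e he)
          (by rw [MP_8f66f0_al_ChernS.prod_d0 _ e he]; exact h) i ?_
        rw [← d0_rotate _ e he i, hi]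
      · exact classQ_Lc_zero _ (fun u => hsupp _ u h) _)
    (by
      rintro ⟨-, h⟩
      have h1 := h 1 (List.rotate_replicate _ _ _)
      rw [Nat.dvd_one] at h1
      exact absurd h1 (Nat.one_lt_pow hK.ne' hp.one_lt).ne')
    (by
      rintro e he - ⟨h1, h2⟩
      rw [MP_8f66f0_al_ChernS.prod_d0 _ e he] at h1
      refine ⟨h1, fun i hi => h2 i ?_⟩
      rw [← d0_rotate _ e he i, hi])
    (by
      rintro e he - ⟨h1, h2⟩
      have he1 : (e.rotate 1).length = 2 * p ^ K := by rw [List.length_rotate, he]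
      rw [MP_8f66f0_al_ChernS.prod_d0 _ _ he1] at h1
      refine ⟨h1.trans (phase_isConj_rotate e 1).symm, fun i hi => h2 i ?_⟩
      rw [← d0_rotate _ _ he1 i, (classQ_rotate_iff 1 e (2 * i)).2 hi])
  rw [wsum_FF2 hω A B hAB hBA _ hQpos, Nat.cast_one, one_mul] at hcore
  exact hcore

end Pool.Agent.Lib.MP_8f66f0_al_Int
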