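import Mathlib
import Pool.Agent.Lib.MP_8f66f0_al_ChernS.ClassQ

/-! # Sums over words of rotation invariant functions. -/

set_option autoImplicit false
set_option linter.unusedSectionVars false
set_option linter.unusedVariables false

namespace Pool.Agent.Lib.MP_8f66f0_al_Int

open Pool.Agent.Lib.MP_8f66f0_al_FinQ Pool.Agent.Lib.MP_8f66f0_al_Uni
  Pool.Agent.Lib.MP_8f66f0_al_ChernS

variable {Γ : Type*} [Group Γ] {S : Type*} [CommRing S] {n : ℕ}

lemma orbitP_gcd {N : ℕ} (hN : 0 < N) (e : List Γ) (he : e.length = 2 * N) (t : ℕ)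
    (ht : e.rotate (2 * t) = e) : e.rotate (2 * Nat.gcd t N) = e := by
  rcases (Nat.gcd_le_right t hN).lt_or_eq with hlt | heq
  · obtain ⟨m', -, hm⟩ := Nat.exists_mul_mod_eq_gcd hlt
    have h1 : 2 * Nat.gcd t N = (2 * t * m') % e.length := by
      rw [he, mul_assoc, Nat.mul_mod_mul_left, hm]
    rw [h1, List.rotate_mod]
    exact phase_rotate_mul e (2 * t) ht m'
  · rw [heq, ← he, List.rotate_length]

/-- the smallest rotation period is `p ^ i` -/
def orbitP_Y (p i : ℕ) (e : List Γ) : Prop :=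
  e.rotate (2 * p ^ i) = e ∧ ∀ j, j < i → e.rotate (2 * p ^ j) ≠ e

lemma orbitP_stab {p : ℕ} (hp : p.Prime) {s i : ℕ} (hi : i ≤ s) (e : List Γ)
    (he : e.length = 2 * p ^ s) (hY : orbitP_Y p i e) (t : ℕ) (ht : e.rotate (2 * t) = e) :
    p ^ i ∣ t := by
  have h1 := orbitP_gcd (pow_pos hp.pos s) e he t ht
  obtain ⟨l, hl, hlg⟩ := (Nat.dvd_prime_pow hp).1 (Nat.gcd_dvd_right t (p ^ s))
  rw [hlg] at h1
  have h2 : i ≤ l := by
    by_contra h
    exact hY.2 l (by omega) h1
  exact (pow_dvd_pow p h2).trans (hlg ▸ Nat.gcd_dvd_left t (p ^ s))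

lemma orbitP_dvd (B A : Matrix (Fin n) (Fin n) (MonoidAlgebra S Γ)) (Q : ℕ) (a : S)
    {F : List Γ → S} (h : ∀ e : List Γ, e.length = 2 * Q → a ∣ F e) : a ∣ wsum B A Q F := by
  have h1 := LemmaB.wsum_dvd B A Q a (F := F) (F' := fun _ => 0) fun e he => by
    rw [sub_zero]
    exact h e he
  have h2 : wsum B A Q (fun _ : List Γ => (0 : S)) = 0 := by
    have h3 := wsum_smul B A Q 0 (fun _ : List Γ => (0 : S))
    simpa using h3
  rwa [h2, sub_zero] at h1

lemma orbitP_rot {q N : ℕ} {Y : List Γ → Prop} {Θ : List Γ → ℤ} {m : ℕ} (hN : N = 2 * (m + 1))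
    (hYr : ∀ e : List Γ, e.length = N → Y e → Y (e.rotate 2))
    (hΘ : IsPh (fun x : List Γ => x.rotate 2) (fun e => e.length = N ∧ Y e) q Θ)
    (t : ℕ) (e : List Γ) (he : e.length = N) :
    (core_I q Y Θ (t : ZMod q) (e.rotate (2 * t)) : S) = core_I q Y Θ 0 e := by
  induction t with
  | zero => simp
  | succ t ih =>
    have h3 := core_I_rot (S := S) hN hYr hΘ (t : ZMod q) (e.rotate (2 * t))
      (by rw [List.length_rotate, he])
    rw [List.rotate_rotate] at h3
    rw [← ih, ← h3]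
    push_cast
    rfl

lemma orbitP_F {s : ℕ} {F : List Γ → S}
    (hF : ∀ e : List Γ, e.length = s → F (e.rotate 2) = F e) (e : List Γ) (he : e.length = s)
    (t : ℕ) : F (e.rotate (2 * t)) = F e := by
  induction t with
  | zero => simp
  | succ t ih =>
    have h1 := hF (e.rotate (2 * t)) (by rw [List.length_rotate, he])
    rw [List.rotate_rotate] at h1
    exact h1.trans ih

open Classical in
lemma orbitP_one {p : ℕ} (hp : p.Prime) (s i : ℕ) (hi : i ≤ s)
    (B A : Matrix (Fin n) (Fin n) (MonoidAlgebra S Γ)) (F : List Γ → S)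
    (hF : ∀ e : List Γ, e.length = 2 * p ^ s → F (e.rotate 2) = F e)
    (hdiv : ∀ e : List Γ, e.length = 2 * p ^ s → ∀ i, i < s → e.rotate (2 * p ^ i) = e →
      ((p ^ (s - i) : ℕ) : S) ∣ F e) :
    ((p ^ s : ℕ) : S) ∣ wsum B A (p ^ s) (fun e => F e * if orbitP_Y p i e then 1 else 0) := by
  have hQ := pow_pos hp.pos s
  have hq := pow_pos hp.pos i
  have : NeZero (p ^ i) := ⟨hq.ne'⟩
  have hYr : ∀ e : List Γ, e.length = 2 * p ^ s → orbitP_Y p i e → orbitP_Y p i (e.rotate 2) := by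
    intro e _ h
    exact ⟨(classQ_rotate_iff 2 e _).2 h.1, fun j hj h' => h.2 j hj
      ((classQ_rotate_iff 2 e _).1 h')⟩
  obtain ⟨Θ, hΘ⟩ := exists_ph (fun x : List Γ => x.rotate 2)
    (fun e => e.length = 2 * p ^ s ∧ orbitP_Y p i e) (p ^ s) (p ^ i) hQ hq (pow_dvd_pow p hi)
    (fun x hx => ⟨by rw [List.length_rotate]; exact hx.1, hYr x hx.1 hx.2⟩)
    (fun x hx => by rw [classQ_iter, ← hx.1, List.rotate_length])
    (fun x hx t ht => by
      rw [classQ_iter] at ht
      exact orbitP_stab hp hi x hx.1 hx.2 t ht)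
  obtain ⟨m, hm⟩ : ∃ m, p ^ s = m + 1 := ⟨p ^ s - 1, by omega⟩
  have hN : 2 * p ^ s = 2 * (m + 1) := by rw [hm]
  have h1 : wsum B A (p ^ s) (fun e => F e * if orbitP_Y p i e then 1 else 0) =
      ∑ a, wsum B A (p ^ s) (fun e => F e * core_I (p ^ i) (orbitP_Y p i) Θ a e) := by
    rw [← LemmaB.wsum_finsum]
    refine wsum_congr B A _ fun e he => ?_
    rw [← Finset.mul_sum]
    by_cases hY : orbitP_Y p i e
    · rw [core_I_sum _ _ _ hY, if_pos hY]
    · rw [if_neg hY, Finset.sum_eq_zero fun a _ => core_I_zero hY]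
  have h2 : ∀ a, wsum B A (p ^ s) (fun e => F e * core_I (p ^ i) (orbitP_Y p i) Θ a e) =
      wsum B A (p ^ s) (fun e => F e * core_I (p ^ i) (orbitP_Y p i) Θ 0 e) := by
    intro a
    rw [← ZMod.natCast_zmod_val a, ← core_wrot B A (p ^ s)
      (fun e => F e * core_I (p ^ i) (orbitP_Y p i) Θ (a.val : ZMod (p ^ i)) e) a.val]
    refine wsum_congr B A _ fun e he => ?_
    rw [orbitP_rot hN hYr hΘ _ e he, orbitP_F hF e he]
  rw [h1, Finset.sum_congr rfl fun a _ => h2 a, Finset.sum_const, Finset.card_univ, ZMod.card,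
    nsmul_eq_mul]
  have h3 : ((p ^ s : ℕ) : S) = ((p ^ i : ℕ) : S) * ((p ^ (s - i) : ℕ) : S) := by
    rw [← Nat.cast_mul, ← pow_add]
    congr 2
    omega
  rw [h3]
  refine mul_dvd_mul_left _ (orbitP_dvd B A _ _ fun e he => ?_)
  by_cases hY : orbitP_Y p i e
  · rcases Nat.lt_or_ge i s with h | h
    · exact dvd_mul_of_dvd_left (hdiv e he i h hY.1) _
    · have h4 : s - i = 0 := by omega
      rw [h4, pow_zero, Nat.cast_one]
      exact one_dvd _
  · rw [core_I_zero hY, mul_zero]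
    exact dvd_zero _

/-- PROOF. For `i ≤ s` let `Y e` be: `e.length = 2 p^s`, `e.rotate (2 p^i) = e`, and (`i = 0` or
`e.rotate (2 p^(i-1)) ≠ e`): the smallest rotation period (with respect to `σ e = e.rotate 2`) is `p^i`. If
`σ^t e = e` and `Y e` then `p^i ∣ t` (the gcd of `t` and `p^s` is a period; compare `stab_pow` in
`ChernS/ClassQ.lean` and `classB_stab`). Hence there is a phase `Θ` modulo `p^i` on `Y` (`exists_ph`), and with
`core_I` (`ChernS/Core.lean`; `core_I_sum`, `core_I_rot`) the sum of `F` over `Y` is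
`Σ_a wsum (F * core_I (p^i) Y Θ a) = p^i * wsum (F * core_I (p^i) Y Θ 0)` (rotate by `2 t` with `core_wrot`, `F` is
invariant). On `Y` `F e = p^(s-i) * F' e`, by `hdiv` for `i < s`, trivially for `i = s`. So `p^s` divides the
sum over `Y_i`. Every word of length `2 p^s` is in exactly one `Y_i`, `i ≤ s`; add up (`LemmaB.wsum_finsum`). -/
theorem wsum_dvd_of_inv {p : ℕ} (hp : p.Prime) (s : ℕ)
    (B A : Matrix (Fin n) (Fin n) (MonoidAlgebra S Γ)) (F : List Γ → S)
    (hF : ∀ e : List Γ, e.length = 2 * p ^ s → F (e.rotate 2) = F e)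
    (hdiv : ∀ e : List Γ, e.length = 2 * p ^ s → ∀ i, i < s → e.rotate (2 * p ^ i) = e →
      ((p ^ (s - i) : ℕ) : S) ∣ F e) :
    ((p ^ s : ℕ) : S) ∣ wsum B A (p ^ s) F := by
  classical
  have h1 : wsum B A (p ^ s) F = ∑ i ∈ Finset.range (s + 1),
      wsum B A (p ^ s) (fun e => F e * if orbitP_Y p i e then 1 else 0) := by
    rw [← LemmaB.wsum_finsum]
    refine wsum_congr B A _ fun e he => ?_
    have hex : ∃ i, e.rotate (2 * p ^ i) = e := ⟨s, by rw [← he, List.rotate_length]⟩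
    have hle : Nat.find hex ≤ s := Nat.find_min' hex (by rw [← he, List.rotate_length])
    rw [← Finset.mul_sum, Finset.sum_eq_single (Nat.find hex)]
    · rw [if_pos ⟨Nat.find_spec hex, fun j hj => Nat.find_min hex hj⟩, mul_one]
    · intro i _ hi
      rw [if_neg]
      rintro ⟨h2, h3⟩
      rcases Nat.lt_trichotomy i (Nat.find hex) with h | h | h
      · exact Nat.find_min hex h h2
      · exact hi h
      · exact h3 _ h (Nat.find_spec hex)
    · intro h
      exact absurd (Finset.mem_range.2 (by omega)) h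
  rw [h1]
  exact Finset.dvd_sum fun i hi => orbitP_one hp s i (by
    have := Finset.mem_range.1 hi
    omega) B A F hF hdiv

end Pool.Agent.Lib.MP_8f66f0_al_Int
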