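import Mathlib
import Pool.Agent.Lib.MP_8f66f0_al_ChernS.Vx

/-! # The values on periodic words with trivial period. -/

set_option autoImplicit false
set_option linter.unusedSectionVars false
set_option linter.unusedVariables false

namespace Pool.Agent.Lib.MP_8f66f0_al_Int

open Pool.Agent.Lib.MP_8f66f0_al_FinQ Pool.Agent.Lib.MP_8f66f0_al_Uni
  Pool.Agent.Lib.MP_8f66f0_al_ChernS

variable {Γ : Type*} [Group Γ] {S : Type*} [CommRing S] {ω : Γ → List Γ → S} {m : ℕ}

theorem scale_rotate (w : List Γ) (t : ℕ) : ∀ j, vx (w.rotate t) j = (vx w t)⁻¹ * vx w (j + t) := by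
  induction t with
  | zero =>
    intro j
    rw [List.rotate_zero, vx_zero, inv_one, one_mul, add_zero]
  | succ t ih =>
    intro j
    rw [← List.rotate_rotate]
    have h1 := ih 1
    have h2 := ih (j + 1)
    generalize hy : w.rotate t = y at h1 h2
    cases y with
    | nil =>
      have hw : w = [] := by
        apply List.length_eq_zero_iff.1
        rw [← List.length_rotate w t, hy, List.length_nil]
      rw [hw]
      simp only [List.rotate_nil, vx_nil, inv_one, mul_one]
    | cons a y =>
      have h3 : vx (a :: y) 1 = a := by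
        rw [vx_of_le _ _ (by rw [List.length_cons]; omega)]
        simp
      rw [h3] at h1
      rw [vx_rotate_one, h2, h1, add_comm 1 t, add_assoc j 1 t, add_comm 1 t]
      group

/-- PROOF. Let `x = z ^ N` (as words), `z = x.take q`, so `x = (List.replicate N z).flatten`. If `z` has product
`1` then `(x.take (a q + b)).prod = (z.take b).prod` for `b < q`, hence `vx x j` depends on `j % q` only
(`vx x j = x.prod ^ .. * (x.take (j % x.length)).prod`, `x.prod = 1`). See `stab_pow` in
`ChernS/ClassQ.lean` and `ClassB.lean` for words fixed by a rotation. -/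
theorem vx_period (x : List Γ) (q N : ℕ) (hq : 0 < q) (hx : x.length = q * N) (hrot : x.rotate q = x)
    (h1 : (x.take q).prod = 1) (j : ℕ) : vx x (j + q) = vx x j := by
  rcases Nat.eq_zero_or_pos N with hN | hN
  · have hw : x = [] := by
      apply List.length_eq_zero_iff.1
      rw [hx, hN, mul_zero]
    rw [hw, vx_nil, vx_nil]
  · have h2 := scale_rotate x q j
    rw [hrot, vx_of_le x q (by rw [hx]; exact Nat.le_mul_of_pos_right q hN), h1, inv_one,
      one_mul] at h2
    exact h2.symm

theorem scale_per {K : Type*} (V : ℕ → K) (q : ℕ) (h : ∀ j, V (j + q) = V j) (N j : ℕ) :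
    V (q * N + j) = V j := by
  induction N with
  | zero => rw [mul_zero, zero_add]
  | succ N ih =>
    have h1 : q * (N + 1) + j = q * N + j + q := by ring
    rw [h1, h, ih]

/-- PROOF. Induction on `N`: `Finset.sum_range_add`, and `V (q * N + j) = V j` by the periodicity. -/
theorem pg_period {K : Type*} [Ring K] (V : ℕ → K) (q N : ℕ) (h : ∀ j, V (j + q) = V j) :
    pg V (q * N) = N • pg V q := by
  induction N with
  | zero =>
    rw [mul_zero, zero_nsmul]
    exact Finset.sum_range_zero _
  | succ N ih =>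
    have h1 : pg V (q * (N + 1)) = pg V (q * N) + pg V q := by
      unfold pg
      rw [mul_add, mul_one, Finset.sum_range_add]
      congr 1
      refine Finset.sum_congr rfl fun j _ => ?_
      rw [scale_per V q h N j, add_assoc, scale_per V q h N (j + 1)]
    rw [h1, ih, succ_nsmul]

theorem scale_tri {K : Type*} [Ring K] (V : ℕ → K) (q N : ℕ) (h : ∀ j, V (j + 2 * q) = V j) :
    tri V (q * N) = N • tri V q := by
  induction N with
  | zero =>
    rw [mul_zero, zero_nsmul]
    exact Finset.sum_range_zero _
  | succ N ih =>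
    have h1 : tri V (q * (N + 1)) = tri V (q * N) + tri V q := by
      unfold tri
      rw [mul_add, mul_one, Finset.sum_range_add]
      congr 1
      refine Finset.sum_congr rfl fun j _ => ?_
      have e0 : 2 * (q * N + j) = (2 * q) * N + 2 * j := by ring
      rw [e0, add_assoc (2 * q * N) (2 * j) 1, add_assoc (2 * q * N) (2 * j) 2,
        scale_per V (2 * q) h N (2 * j), scale_per V (2 * q) h N (2 * j + 1),
        scale_per V (2 * q) h N (2 * j + 2)]
    rw [h1, ih, succ_nsmul]

theorem scale_exE {K : Type*} [Ring K] (V : ℕ → K) (m q N : ℕ) (h : ∀ j, V (j + q) = V j) :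
    exE m (q * N) V = N ^ m • exE m q V := by
  unfold exE
  rw [pg_period V q N h, smul_pow, mul_smul_comm]

theorem scale_hmt {K : Type*} [Ring K] (V : ℕ → K) (m q N : ℕ) (hm : 0 < m)
    (h : ∀ j, V (j + 2 * q) = V j) : hmt m (q * N) V = N ^ m • hmt m q V := by
  have h1 : pg (fun j => V (2 * j)) (q * N) = N • pg (fun j => V (2 * j)) q := by
    apply pg_period
    intro j
    have e0 : 2 * (j + q) = 2 * j + 2 * q := by ring
    simp only [e0]
    exact h (2 * j)
  have h2 : pg V (2 * (q * N)) = N • pg V (2 * q) := by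
    rw [← mul_assoc]
    exact pg_period V (2 * q) N h
  unfold hmt
  rw [scale_tri V q N h, h1, h2]
  have h3 : ∑ k ∈ Finset.range m, (N • pg (fun j => V (2 * j)) q) ^ k *
      (N • pg V (2 * q)) ^ (m - 1 - k) = N ^ (m - 1) • ∑ k ∈ Finset.range m,
      (pg (fun j => V (2 * j)) q) ^ k * (pg V (2 * q)) ^ (m - 1 - k) := by
    rw [Finset.smul_sum]
    refine Finset.sum_congr rfl fun k hk => ?_
    have hk' := Finset.mem_range.1 hk
    rw [smul_pow, smul_pow, smul_mul_smul_comm, ← pow_add]
    congr 2
    omega
  rw [h3, smul_mul_smul_comm, ← pow_succ']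
  congr 2
  omega

theorem scale_exF {K : Type*} [Ring K] (V : ℕ → K) (m q N : ℕ) (hm : 0 < m)
    (h : ∀ j, V (j + 2 * q) = V j) : exF m (q * N) V = N ^ m • exF m q V := by
  have h1 : exE m (2 * (q * N)) V = N ^ m • exE m (2 * q) V := by
    rw [← mul_assoc]
    exact scale_exE V m (2 * q) N h
  have h2 := scale_hmt (fun j => V (j + 1)) m q N hm (fun j => by
    have e0 : j + 2 * q + 1 = j + 1 + 2 * q := by ring
    simp only [e0]
    exact h (j + 1))
  unfold exF
  rw [h1, h2, scale_hmt V m q N hm h, mul_smul_comm, mul_smul_comm, smul_sub, smul_add]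

/-- PROOF. `vx_period` and `pg_period`: `exE m (q N) V = V 0 * V 1 * (N • pg V q) ^ m = N ^ m • exE m q V`. -/
theorem eps_dvd (x : List Γ) (q N : ℕ) (hq : 0 < q) (hx : x.length = q * N) (hrot : x.rotate q = x)
    (h1 : (x.take q).prod = 1) : (N : S) ^ m ∣ eps ω m x := by
  unfold eps
  rw [hx, scale_exE _ m q N (fun j => by rw [vx_period x q N hq hx hrot h1]), map_nsmul,
    nsmul_eq_mul, Nat.cast_pow]
  exact Dvd.intro _ rfl

/-- PROOF. `e` has length `2 q N` and the period `2 q` with product `1`: `vx_period` with `2 q`. So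
`exE m (2 (q N)) = N ^ m • exE m (2 q)`, and for `m > 0`: `tri V (q N) = N • tri V q` (as `pg_period`),
`pg (fun j => V (2 * j)) (q N) = N • ..`, `pg V (2 (q N)) = N • pg V (2 q)`, so `hmt m (q N) V = N ^ m • hmt m q V`
(`N * N ^ (m - 1)`), the same for the shifted sequence. Hence `exF m (q N) V = N ^ m • exF m q V`. -/
theorem FF_dvd (hm : 0 < m) (e : List Γ) (q N : ℕ) (hq : 0 < q) (he : e.length = 2 * (q * N))
    (hrot : e.rotate (2 * q) = e) (h1 : (e.take (2 * q)).prod = 1) :
    (N : S) ^ m ∣ FF ω m (q * N) e := by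
  unfold FF
  rw [scale_exF _ m q N hm (fun j => by
    rw [vx_period e (2 * q) N (by omega) (by rw [he]; ring) hrot h1]), map_nsmul,
    nsmul_eq_mul, Nat.cast_pow]
  exact Dvd.intro _ rfl

end Pool.Agent.Lib.MP_8f66f0_al_Int
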