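import Mathlib
import Pool.Agent.Lib.MP_8f66f0_al_ChernS.PWords
import Pool.Agent.Lib.MP_8f66f0_al_Int.Scale

/-! # A potential for `ε` on the words with product `1`. -/

set_option autoImplicit false
set_option linter.unusedSectionVars false
set_option linter.unusedVariables false

namespace Pool.Agent.Lib.MP_8f66f0_al_Int

open Pool.Agent.Lib.MP_8f66f0_al_FinQ Pool.Agent.Lib.MP_8f66f0_al_Uni
  Pool.Agent.Lib.MP_8f66f0_al_ChernS

variable {Γ : Type*} [Group Γ] {S : Type*} [CommRing S] {ω : Γ → List Γ → S} {m : ℕ}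

/-- The value at a word with an additional vertex `a`. -/
noncomputable def kk (ω : Γ → List Γ → S) (m : ℕ) (a : Γ) (x : List Γ) : S :=
  Lc ω x.prod (nn a * nn (vx x 0) * (pg (fun j => nn (vx x j)) x.length) ^ m)

lemma potenA_key {r : ℕ} {c : Γ} {K : Type*} [Ring K] {f : MonoidAlgebra S (FreeMonoid Γ) →+* K}
    {α : K →+* K} {D : K →+ K} {L : K →+ S} {deg : ℕ → AddSubgroup K}
    (SS : Super r ω c K f α D L deg) {A : K} {N : ℕ → K} (hA : abs_Let f A)
    (hN : ∀ j, abs_Let f (N j)) (k n : ℕ) (h : N n = N 0) :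
    L (A * N 1 * (pg N n) ^ k) - L (A * N 0 * (pg N n) ^ k) = L (N 0 * N 1 * (pg N n) ^ k) := by
  have h1 := SS.L_D (A * N 0 * N 1 * (pg N n) ^ k)
  rw [SS.D_mul, abs_D3 SS hA (hN 0) (hN 1), abs_D_pow SS (abs_D_pg SS hN n h), mul_zero, add_zero,
    add_mul, sub_mul, map_add, map_sub] at h1
  linear_combination -h1

/-- PROOF. Let `x = g :: x'`, `N j = nn (vx x j)`. `(x.rotate 1).prod = g⁻¹ * x.prod * g = 1`
(`prod_rotate_one`), and the vertices of `x.rotate 1` are `g⁻¹ * vx x (j + 1)` (`vx_rotate_one`). By `Lc_trans` (with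
the translation by `g`) the value `kk ω m (g⁻¹ * a) (x.rotate 1)` is
`Lc ω 1 (nn a * N 1 * (Σ_{j<Q} N (j+1) * N (j+2)) ^ m)`, and the shifted polygon is the same polygon, since
`vx x (j + Q) = vx x j` (`x.prod = 1`). In the super ring of `exists_super hω 1` (letters `n`): `D` of
`n(a) * N 0 * N 1 * pg ^ m` is `N 0 * N 1 * pg^m - n(a) * N 1 * pg^m + n(a) * N 0 * pg^m`, because `D pg = 0`
(closed polygon; see `exE_sum` in `ChernS/Abs.lean` and the lemmas there), and `L (D y) = 0`. The third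
summand gives `kk ω m a x`, the first `eps ω m x`. -/
theorem kk_rotate (hω : IsHomCocycle (2 * (m + 1)) ω) (a : Γ) (g : Γ) (x' : List Γ)
    (h1 : (g :: x').prod = 1) :
    kk ω m (g⁻¹ * a) ((g :: x').rotate 1) - kk ω m a (g :: x') = eps ω m (g :: x') := by
  obtain ⟨K, _, f, α, D, L, deg, SS⟩ := pWords_super hω (g :: x').prod
  have hne : (g :: x') ≠ [] := List.cons_ne_nil _ _
  set x := g :: x' with hx
  have hN : ∀ j, abs_Let f (f (nn (vx x j))) := fun j => ⟨_, rfl⟩
  have hp : ∀ j, (fun j => f (nn (vx x j))) (j + x.length) = (fun j => f (nn (vx x j))) j :=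
    fun j => by
      change f (nn (vx x (j + x.length))) = f (nn (vx x j))
      rw [vx_add x hne j, SS.period]
  have h0 : f (nn (vx x x.length)) = f (nn (vx x 0)) := by
    have h2 := hp 0
    simp only [zero_add] at h2
    exact h2
  have e1 : kk ω m (g⁻¹ * a) (x.rotate 1) =
      L (f (nn a) * f (nn (vx x 1)) * (pg (fun j => f (nn (vx x j))) x.length) ^ m) := by
    have h2 : nn (g⁻¹ * a) * nn (vx (x.rotate 1) 0) *
        (pg (fun j => nn (vx (x.rotate 1) j)) (x.rotate 1).length) ^ m =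
        Pool.Agent.Lib.MP_8f66f0_al_ChernS.trans g⁻¹ (nn a * nn (vx x 1) * (pg (fun j => nn (vx x (j + 1))) x.length) ^ m :
          MonoidAlgebra S (FreeMonoid Γ)) := by
      rw [map_mul, map_mul, map_pow, map_pg, trans_nn, trans_nn, List.length_rotate, hx,
        vx_rotate_one]
      simp only [trans_nn, vx_rotate_one]
    have h3 : (x.rotate 1).prod = g⁻¹ * x.prod * g⁻¹⁻¹ := by
      rw [hx, prod_rotate_one, inv_inv]
    rw [kk, h2, h3, Lc_trans hω.toIsHomCochain, ← SS.L_f, map_mul f, map_mul f, map_pow f, map_pg]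
    congr 3
    exact abs_pg_shift (fun j => f (nn (vx x j))) x.length hp
  have e2 : kk ω m a x =
      L (f (nn a) * f (nn (vx x 0)) * (pg (fun j => f (nn (vx x j))) x.length) ^ m) := by
    rw [kk, ← SS.L_f, map_mul f, map_mul f, map_pow f, map_pg]
  have e3 : eps ω m x = L (f (nn (vx x 0)) * f (nn (vx x 1)) *
      (pg (fun j => f (nn (vx x j))) x.length) ^ m) := by
    rw [eps, ← SS.L_f, map_exE]
    rfl
  rw [e1, e2, e3]
  exact potenA_key SS ⟨a, rfl⟩ hN m x.length h0

/-- PROOF. `vx_period`, `pg_period`. -/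
theorem kk_dvd (a : Γ) (x : List Γ) (q N : ℕ) (hq : 0 < q) (hx : x.length = q * N)
    (hrot : x.rotate q = x) (h1 : (x.take q).prod = 1) : (N : S) ^ m ∣ kk ω m a x := by
  have h2 : pg (fun j => (nn (vx x j) : MonoidAlgebra S (FreeMonoid Γ))) x.length =
      N • pg (fun j => nn (vx x j)) q := by
    rw [hx]
    exact pg_period _ q N fun j => by
      change nn (vx x (j + q)) = nn (vx x j)
      rw [vx_period x q N hq hx hrot h1]
  refine ⟨Lc ω x.prod (nn a * nn (vx x 0) * (pg (fun j => nn (vx x j)) q) ^ m), ?_⟩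
  rw [kk, h2, smul_pow, mul_smul_comm, map_nsmul, nsmul_eq_mul, Nat.cast_pow]

/-- PROOF. All vertices of the word are `1`; `pg = Q • (nn 1 * nn 1)`; for `m > 0` every word in the
expansion has two equal neighbours `1, 1`, so `ω` vanishes (`diag`). (In the super ring of `exists_super`:
`f (nn 1) * f (nn 1) = 0`.) -/
theorem kk_one (hω : IsHomCocycle (2 * (m + 1)) ω) (hm : 0 < m) (a : Γ) (Q : ℕ) :
    kk ω m a (List.replicate Q 1) = 0 := by
  have hv : ∀ j, vx (List.replicate Q (1 : Γ)) j = 1 := by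
    intro j
    rw [vx, List.prod_replicate, one_pow, one_pow, one_mul, List.take_replicate,
      List.prod_replicate, one_pow]
  obtain ⟨K, _, f, α, D, L, deg, SS⟩ := pWords_super hω (List.replicate Q (1 : Γ)).prod
  have h2 : pg (fun j => f (nn (vx (List.replicate Q (1 : Γ)) j)))
      (List.replicate Q (1 : Γ)).length = 0 := by
    unfold pg
    refine Finset.sum_eq_zero fun j _ => ?_
    change f (nn (vx (List.replicate Q (1 : Γ)) j)) * f (nn (vx (List.replicate Q (1 : Γ)) (j + 1)))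
      = 0
    rw [hv, hv]
    exact SS.sq 1
  rw [kk, ← SS.L_f, map_mul f, map_pow f, map_pg, h2, zero_pow hm.ne', mul_zero, map_zero]

end Pool.Agent.Lib.MP_8f66f0_al_Int
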