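import Mathlib
import Pool.Agent.Lib.MP_8f66f0_al_Int.PotenA

/-! # A potential for `ε` on the words with product `1`: existence. -/

set_option autoImplicit false
set_option linter.unusedSectionVars false
set_option linter.unusedVariables false

namespace Pool.Agent.Lib.MP_8f66f0_al_Int

open Pool.Agent.Lib.MP_8f66f0_al_FinQ Pool.Agent.Lib.MP_8f66f0_al_Uni
  Pool.Agent.Lib.MP_8f66f0_al_ChernS

variable {Γ : Type*} [Group Γ] {S : Type*} [CommRing S] {ω : Γ → List Γ → S} {m : ℕ}

theorem potenB_vx_one (g : Γ) (w : List Γ) : vx (g :: w) 1 = g := by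
  rw [vx_of_le _ _ (by simp)]
  simp

/-- the vertices of a rotated word -/
theorem potenB_vx_rotate (r : List Γ) (i k : ℕ) :
    vx (r.rotate i) k = (vx r i)⁻¹ * vx r (i + k) := by
  induction i generalizing k with
  | zero => rw [List.rotate_zero, vx_zero, inv_one, one_mul, zero_add]
  | succ i ih =>
    rw [← List.rotate_rotate]
    rcases hw : r.rotate i with _ | ⟨a, w⟩
    · have hr : r = [] := List.rotate_eq_nil_iff.1 hw
      subst hr
      simp [vx_nil]
    · have h1 := ih 1
      rw [hw, potenB_vx_one] at h1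
      have h2 := ih (k + 1)
      rw [hw] at h2
      rw [vx_rotate_one, h2, h1, show i + (k + 1) = i + 1 + k by ring]
      group

/-- words with the same rotation have the same vertex -/
theorem potenB_vx_eq (Q : ℕ)
    (hfix : ∀ x : List Γ, x.length = Q → x.prod = 1 → ∀ i, x.rotate i = x → vx x i = 1)
    (r : List Γ) (hr : r.length = Q) (hr1 : r.prod = 1) {i j : ℕ}
    (h : r.rotate i = r.rotate j) : vx r i = vx r j := by
  wlog hij : i ≤ j generalizing i j
  · exact (this h.symm (by omega)).symm
  obtain ⟨k, rfl⟩ : ∃ k, j = i + k := ⟨j - i, by omega⟩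
  have h1 := hfix (r.rotate i) (by rw [List.length_rotate]; exact hr)
    (List.prod_rotate_eq_one_of_prod_eq_one hr1 i) k (by rw [List.rotate_rotate]; exact h.symm)
  rw [potenB_vx_rotate] at h1
  exact (inv_mul_eq_one.1 h1)

/-- PROOF. On the words `x` of length `Q` with product `1` the rotations define an equivalence relation
(see `phaseGen_setoid` in `ChernS/PhaseGen.lean`). Choose a representative `r x` of the class of `x` and
`J x` with `(r x).rotate (J x) = x`, and put `K x = kk ω m ((vx (r x) (J x))⁻¹) x` (and `K x = 0` if `x` does not have length `Q` and product `1`).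
For `x = g :: x'` and `y = x.rotate 1`: `r y = r x =: r`, `r.rotate (J y) = r.rotate (J x + 1)`. The hypothesis `hfix` implies
`vx r (J y) = vx r (J x + 1)` (if `i ≤ j` and `r.rotate i = r.rotate j` then `z = r.rotate i` satisfies
`z.rotate (j - i) = z` and `vx r j = vx r i * vx z (j - i)`), and `vx r (J x + 1) = vx r (J x) * g`, where `g` is the first
letter of `r.rotate (J x) = x`. So `K y = kk ω m (g⁻¹ * (vx r (J x))⁻¹) (x.rotate 1)` and `kk_rotate` applies. -/
theorem exists_potential (hω : IsHomCocycle (2 * (m + 1)) ω) (hm : 0 < m) (Q : ℕ) (hQ : 0 < Q)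
    (hfix : ∀ x : List Γ, x.length = Q → x.prod = 1 → ∀ i, x.rotate i = x → vx x i = 1) :
    ∃ K : List Γ → S, K (List.replicate Q 1) = 0 ∧
      (∀ x, x.prod ≠ 1 → K x = 0) ∧
      (∀ x, x.length = Q → x.prod = 1 → K (x.rotate 1) - K x = eps ω m x) ∧
      (∀ x, x.length = Q → x.prod = 1 → ∀ q N, 0 < q → Q = q * N → x.rotate q = x →
        (x.take q).prod = 1 → (N : S) ^ m ∣ K x) := by
  classical
  let s := List.IsRotated.setoid Γ
  have hr : ∀ x : List Γ, ∃ j : ℕ, (Quotient.out (Quotient.mk s x)).rotate j = x := fun x =>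
    Quotient.mk_out (s := s) x
  choose J hJ using hr
  refine ⟨fun x => if x.length = Q ∧ x.prod = 1 then
    kk ω m ((vx (Quotient.out (Quotient.mk s x)) (J x))⁻¹) x else 0, ?_, ?_, ?_, ?_⟩
  · simp only
    rw [if_pos ⟨List.length_replicate, by simp⟩]
    exact kk_one hω hm _ Q
  · intro x hx
    simp only
    rw [if_neg (fun h => hx h.2)]
  · intro x hx hx1
    have hy1 : (x.rotate 1).prod = 1 := List.prod_rotate_eq_one_of_prod_eq_one hx1 1
    simp only
    have hyQ : (x.rotate 1).length = Q := (List.length_rotate _ _).trans hx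
    rw [if_pos (show x.length = Q ∧ x.prod = 1 from ⟨hx, hx1⟩),
      if_pos (show (x.rotate 1).length = Q ∧ (x.rotate 1).prod = 1 from ⟨hyQ, hy1⟩)]
    have he : Quotient.mk s (x.rotate 1) = Quotient.mk s x :=
      (Quotient.sound (s := s) (show s.r x (x.rotate 1) from ⟨1, rfl⟩)).symm
    have h1 := hJ x
    have h2 := hJ (x.rotate 1)
    rw [he] at h2 ⊢
    generalize Quotient.out (Quotient.mk s x) = r at h1 h2 ⊢
    have hrQ : r.length = Q := by
      rw [← hx, ← h1, List.length_rotate]
    have hr1 : r.prod = 1 := by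
      have h3 : (r.rotate (J x)).rotate (r.length - J x % r.length) = r := by
        rw [← List.rotate_mod r (J x), List.rotate_rotate]
        have h4 : J x % r.length < r.length := Nat.mod_lt _ (by omega)
        rw [show J x % r.length + (r.length - J x % r.length) = r.length by omega,
          List.rotate_length]
      rw [h1] at h3
      rw [← h3]
      exact List.prod_rotate_eq_one_of_prod_eq_one hx1 _
    have h3 : vx r (J (x.rotate 1)) = vx r (J x + 1) := by
      refine potenB_vx_eq Q hfix r hrQ hr1 ?_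
      rw [h2, ← List.rotate_rotate, h1]
    rcases x with _ | ⟨g, x'⟩
    · simp at hx
      omega
    · have h4 := potenB_vx_rotate r (J (g :: x')) 1
      rw [h1, potenB_vx_one] at h4
      have h6 : vx r (J (g :: x') + 1) = vx r (J (g :: x')) * g := eq_mul_of_inv_mul_eq h4.symm
      have h5 : (vx r (J ((g :: x').rotate 1)))⁻¹ = g⁻¹ * (vx r (J (g :: x')))⁻¹ := by
        rw [h3, h6, mul_inv_rev]
      rw [h5]
      exact kk_rotate hω _ g x' hx1
  · intro x hx hx1 q N hq hQN hrot h1
    simp only
    rw [if_pos ⟨hx, hx1⟩]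
    exact kk_dvd _ x q N hq (hx.trans hQN) hrot h1

end Pool.Agent.Lib.MP_8f66f0_al_Int
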