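import Mathlib
import Pool.Agent.Lib.MP_8f66f0_al_ChernS.ClassB
import Pool.Agent.Lib.MP_8f66f0_al_Int.Eval2
import Pool.Agent.Lib.MP_8f66f0_al_Int.OrbitP
import Pool.Agent.Lib.MP_8f66f0_al_Int.PotenB

/-! # Divisibility by powers of `p` at the class of the identity. -/

set_option autoImplicit false
set_option linter.unusedSectionVars false
set_option linter.unusedVariables false

namespace Pool.Agent.Lib.MP_8f66f0_al_Int

open Pool.Agent.Lib.MP_8f66f0_al_FinQ Pool.Agent.Lib.MP_8f66f0_al_Uni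
  Pool.Agent.Lib.MP_8f66f0_al_ChernS

variable {Γ : Type*} [Group Γ] {S : Type*} [CommRing S] {ω : Γ → List Γ → S} {n m : ℕ}

lemma classB2_pow {p : ℕ} (htor : ∀ g : Γ, g ^ p = 1 → g = 1) (l : ℕ) (y : Γ)
    (h : y ^ p ^ l = 1) : y = 1 := by
  induction l generalizing y with
  | zero => simpa using h
  | succ l ih =>
    rw [pow_succ, pow_mul] at h
    exact ih y (htor _ h)

/-- A word with product `1` and the period `q` is the repetition of a word with product `1`. -/
lemma classB2_take {p : ℕ} (htor : ∀ g : Γ, g ^ p = 1 → g = 1) (x : List Γ) (q l : ℕ)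
    (hq : q ≤ x.length) (hx : x.length = q * p ^ l) (hr : x.rotate q = x) (h1 : x.prod = 1) :
    (x.take q).prod = 1 := by
  have h2 := phase_repeat x (g := q) (m := p ^ l) hq (by rw [hx, mul_comm]) hr
  refine classB2_pow htor l _ ?_
  rw [← phase_prod_flatten, ← h2]
  exact h1

theorem classB2_dvd (hω : IsHomCocycle (2 * (m + 1)) ω) (hm : 0 < m)
    (A B : Matrix (Fin n) (Fin n) (MonoidAlgebra S Γ)) (hAB : A * B = 1) (hBA : B * A = 1)
    {p : ℕ} (hp : p.Prime) (htor : ∀ g : Γ, g ^ p = 1 → g = 1)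
    (hsupp : ∀ c u, c ≠ 1 → ω c u = 0) (s : ℕ) :
    ((p ^ s : ℕ) : S) ∣ ((p ^ s - 1).descFactorial m : S) * chern m A B ω := by
  have hQ : 0 < p ^ s := pow_pos hp.pos s
  have hqQ : ∀ i, i ≤ s → p ^ i * p ^ (s - i) = p ^ s := by
    intro i hi
    rw [← pow_add]
    congr 1
    omega
  have hfix : ∀ x : List Γ, x.length = p ^ s → x.prod = 1 → ∀ i, x.rotate i = x → vx x i = 1 := by
    intro x hx h1 i hi
    obtain ⟨l, hl, hlg⟩ := (Nat.dvd_prime_pow hp).1 (Nat.gcd_dvd_right i (p ^ s))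
    have hrl : x.rotate (p ^ l) = x := by
      rcases (Nat.gcd_le_right i hQ).lt_or_eq with hlt | heq
      · obtain ⟨m', -, hm'⟩ := Nat.exists_mul_mod_eq_gcd hlt
        rw [← hlg, ← hm', ← hx, List.rotate_mod]
        exact phase_rotate_mul x i hi m'
      · rw [← hlg, heq, ← hx, List.rotate_length]
    have ht : (x.take (p ^ l)).prod = 1 :=
      classB2_take htor x (p ^ l) (s - l) (by rw [hx]; exact Nat.pow_le_pow_right hp.pos hl)
        (by rw [hx, hqQ l hl]) hrl h1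
    have hper : ∀ k, vx x (k * p ^ l) = 1 := by
      intro k
      induction k with
      | zero => rw [zero_mul, vx_zero]
      | succ k ih =>
        rw [Nat.succ_mul, vx_period x (p ^ l) (p ^ (s - l)) (pow_pos hp.pos l)
          (by rw [hx, hqQ l hl]) hrl ht, ih]
    obtain ⟨k, hk⟩ : p ^ l ∣ i := hlg ▸ Nat.gcd_dvd_left i (p ^ s)
    rw [hk, mul_comm]
    exact hper k
  obtain ⟨K, hK1, hK0, hKr, hKd⟩ := exists_potential hω hm (p ^ s) hQ hfix
  rw [← wsum_FF2 hω A B hAB hBA (p ^ s) hQ]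
  have h5 := core_d0 A B hBA (p ^ s) K hK1
  have h6 := core_d0 B A hAB (p ^ s) K hK1
  have h7 := wsum_rotate_one B A (p ^ s) (fun w => K (d0 w))
  rw [h6] at h7
  have hsum : wsum B A (p ^ s) (FF ω m (p ^ s)) = wsum B A (p ^ s)
      (fun e => FF ω m (p ^ s) e + ((-1) * K (d0 (e.rotate 1)) + K (d0 e))) := by
    rw [wsum_add, wsum_add, wsum_smul, h5, h7]
    ring
  rw [hsum]
  have hFF0 : ∀ e : List Γ, e.prod ≠ 1 → FF ω m (p ^ s) e = 0 := by
    intro e he
    exact classQ_Lc_zero _ (fun u => hsupp _ u he) _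
  refine wsum_dvd_of_inv hp s B A _ ?_ ?_
  · intro e he
    have he1 : (e.rotate 1).length = 2 * p ^ s := by rw [List.length_rotate, he]
    have he2 : (e.rotate 2).length = 2 * p ^ s := by rw [List.length_rotate, he]
    have r1 : d0 (e.rotate 2) = (d0 e).rotate 1 := d0_rotate (p ^ s) e he 1
    have r2 : d0 ((e.rotate 2).rotate 1) = (d0 (e.rotate 1)).rotate 1 := by
      rw [← d0_rotate (p ^ s) _ he1 1, List.rotate_rotate, List.rotate_rotate]
    by_cases h1 : e.prod = 1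
    · have p1 : (e.rotate 1).prod = 1 := (classB_prod_rotate e 1).2 h1
      have k1 := hKr (d0 e) (Pool.Agent.Lib.MP_8f66f0_al_ChernS.length_d0 _ e he) (by rw [Pool.Agent.Lib.MP_8f66f0_al_ChernS.prod_d0 _ e he, h1])
      have k2 := hKr (d0 (e.rotate 1)) (Pool.Agent.Lib.MP_8f66f0_al_ChernS.length_d0 _ _ he1) (by rw [Pool.Agent.Lib.MP_8f66f0_al_ChernS.prod_d0 _ _ he1, p1])
      have k3 := FF_diff hω m (p ^ s) e he
      beta_reduce
      rw [r1, r2]
      linear_combination k3 + k1 - k2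
    · have p1 : (e.rotate 1).prod ≠ 1 := fun h => h1 ((classB_prod_rotate e 1).1 h)
      have p2 : (e.rotate 2).prod ≠ 1 := fun h => h1 ((classB_prod_rotate e 2).1 h)
      have p3 : ((e.rotate 2).rotate 1).prod ≠ 1 := fun h =>
        p2 ((classB_prod_rotate (e.rotate 2) 1).1 h)
      have he3 : ((e.rotate 2).rotate 1).length = 2 * p ^ s := by rw [List.length_rotate, he2]
      have z1 : K (d0 e) = 0 :=
        hK0 _ (by rw [Pool.Agent.Lib.MP_8f66f0_al_ChernS.prod_d0 _ e he]; exact h1)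
      have z2 : K (d0 (e.rotate 1)) = 0 :=
        hK0 _ (by rw [Pool.Agent.Lib.MP_8f66f0_al_ChernS.prod_d0 _ _ he1]; exact p1)
      have z3 : K (d0 (e.rotate 2)) = 0 :=
        hK0 _ (by rw [Pool.Agent.Lib.MP_8f66f0_al_ChernS.prod_d0 _ _ he2]; exact p2)
      have z4 : K (d0 ((e.rotate 2).rotate 1)) = 0 :=
        hK0 _ (by rw [Pool.Agent.Lib.MP_8f66f0_al_ChernS.prod_d0 _ _ he3]; exact p3)
      beta_reduce
      rw [hFF0 e h1, hFF0 _ p2, z1, z2, z3, z4]
  · intro e he i hi hr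
    have he1 : (e.rotate 1).length = 2 * p ^ s := by rw [List.length_rotate, he]
    have hqi := hqQ i hi.le
    have hqpos : 0 < p ^ i := pow_pos hp.pos i
    beta_reduce
    by_cases h1 : e.prod = 1
    · have p1 : (e.rotate 1).prod = 1 := (classB_prod_rotate e 1).2 h1
      have hdvd : ((p ^ (s - i) : ℕ) : S) ∣ ((p ^ (s - i) : ℕ) : S) ^ m := dvd_pow_self _ hm.ne'
      have hr1 : (e.rotate 1).rotate (2 * p ^ i) = e.rotate 1 := by
        rw [List.rotate_rotate, add_comm, ← List.rotate_rotate, hr]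
      have hd : (d0 e).rotate (p ^ i) = d0 e := by
        rw [← d0_rotate (p ^ s) e he (p ^ i), hr]
      have hd1 : (d0 (e.rotate 1)).rotate (p ^ i) = d0 (e.rotate 1) := by
        rw [← d0_rotate (p ^ s) _ he1 (p ^ i), hr1]
      have hle : p ^ i ≤ p ^ s := Nat.pow_le_pow_right hp.pos hi.le
      have t0 : (e.take (2 * p ^ i)).prod = 1 :=
        classB2_take htor e (2 * p ^ i) (s - i) (by rw [he]; omega)
          (by rw [he, mul_assoc, hqi]) hr h1
      have t1 : ((d0 e).take (p ^ i)).prod = 1 :=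
        classB2_take htor (d0 e) (p ^ i) (s - i) (by rw [Pool.Agent.Lib.MP_8f66f0_al_ChernS.length_d0 _ e he]; exact hle)
          (by rw [Pool.Agent.Lib.MP_8f66f0_al_ChernS.length_d0 _ e he, hqi]) hd (by rw [Pool.Agent.Lib.MP_8f66f0_al_ChernS.prod_d0 _ e he, h1])
      have t2 : ((d0 (e.rotate 1)).take (p ^ i)).prod = 1 :=
        classB2_take htor (d0 (e.rotate 1)) (p ^ i) (s - i) (by rw [Pool.Agent.Lib.MP_8f66f0_al_ChernS.length_d0 _ _ he1]; exact hle)
          (by rw [Pool.Agent.Lib.MP_8f66f0_al_ChernS.length_d0 _ _ he1, hqi]) hd1 (by rw [Pool.Agent.Lib.MP_8f66f0_al_ChernS.prod_d0 _ _ he1, p1])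
      have d1 := FF_dvd (S := S) (ω := ω) (m := m) hm e (p ^ i) (p ^ (s - i)) hqpos
        (by rw [he, hqi]) hr t0
      rw [hqi] at d1
      have d2 := hKd (d0 e) (Pool.Agent.Lib.MP_8f66f0_al_ChernS.length_d0 _ e he) (by rw [Pool.Agent.Lib.MP_8f66f0_al_ChernS.prod_d0 _ e he, h1]) (p ^ i) (p ^ (s - i))
        hqpos hqi.symm hd t1
      have d3 := hKd (d0 (e.rotate 1)) (Pool.Agent.Lib.MP_8f66f0_al_ChernS.length_d0 _ _ he1) (by rw [Pool.Agent.Lib.MP_8f66f0_al_ChernS.prod_d0 _ _ he1, p1]) (p ^ i)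
        (p ^ (s - i)) hqpos hqi.symm hd1 t2
      exact dvd_add (hdvd.trans d1) (dvd_add ((hdvd.trans d3).mul_left _) (hdvd.trans d2))
    · have p1 : (e.rotate 1).prod ≠ 1 := fun h => h1 ((classB_prod_rotate e 1).1 h)
      have z1 : K (d0 e) = 0 :=
        hK0 _ (by rw [Pool.Agent.Lib.MP_8f66f0_al_ChernS.prod_d0 _ e he]; exact h1)
      have z2 : K (d0 (e.rotate 1)) = 0 :=
        hK0 _ (by rw [Pool.Agent.Lib.MP_8f66f0_al_ChernS.prod_d0 _ _ he1]; exact p1)
      rw [hFF0 e h1, z1, z2]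
      simp

end Pool.Agent.Lib.MP_8f66f0_al_Int
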