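import Mathlib
import Pool.Agent.Lib.MP_8f66f0_al_ChernS.Main
import Pool.Agent.Lib.MP_8f66f0_al_Int.ClassB2

/-! # The integral Chern character. -/

set_option autoImplicit false
set_option linter.unusedSectionVars false
set_option linter.unusedVariables false

namespace Pool.Agent.Lib.MP_8f66f0_al_Int

open Pool.Agent.Lib.MP_8f66f0_al_FinQ Pool.Agent.Lib.MP_8f66f0_al_Uni
  Pool.Agent.Lib.MP_8f66f0_al_ChernS

variable {Γ : Type*} [Group Γ] {n m : ℕ}

/-- `(Q - 1) (Q - 2) ... (Q - m)` is `(-1)^m m!` modulo `Q`. -/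
lemma final_desc (Q : ℕ) (hQ : 0 < Q) (m : ℕ) :
    (Q : ℤ) ∣ ((Q - 1).descFactorial m : ℤ) - (-1) ^ m * (m.factorial : ℤ) := by
  induction m with
  | zero => simp
  | succ m ih =>
    obtain ⟨d, hd⟩ := ih
    by_cases h : m ≤ Q - 1
    · refine ⟨((Q - 1).descFactorial m : ℤ) - (m + 1) * d, ?_⟩
      rw [Nat.descFactorial_succ, Nat.factorial_succ]
      push_cast [Nat.cast_sub h, Nat.cast_sub (Nat.one_le_iff_ne_zero.2 hQ.ne')]
      rw [pow_succ]
      linear_combination (-(m : ℤ) - 1) * hd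
    · have h0 : (Q - 1).descFactorial m = 0 := Nat.descFactorial_eq_zero_iff_lt.2 (by omega)
      have h1 : (Q - 1).descFactorial (m + 1) = 0 := Nat.descFactorial_eq_zero_iff_lt.2 (by omega)
      rw [h0] at hd
      refine ⟨-(m + 1) * d, ?_⟩
      rw [h1, Nat.factorial_succ]
      push_cast at hd ⊢
      rw [pow_succ]
      linear_combination (-(m : ℤ) - 1) * hd

/-- From divisibility in the square zero extension to vanishing. -/
lemma final_snd {M : Type*} [AddCommGroup M] [Module ℤᵐᵒᵖ M] [IsCentralScalar ℤ M] (Q c : ℕ)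
    (hM : ∀ x : M, Q • x = 0) (y : M)
    (h : ((Q : ℕ) : TrivSqZeroExt ℤ M) ∣ (c : TrivSqZeroExt ℤ M) * TrivSqZeroExt.inr y) :
    c • y = 0 := by
  obtain ⟨z, hz⟩ := h
  rw [← nsmul_eq_mul, ← nsmul_eq_mul] at hz
  have h1 := congrArg (TrivSqZeroExt.sndHom ℤ M) hz
  rw [map_nsmul, map_nsmul] at h1
  change c • (TrivSqZeroExt.inr y : TrivSqZeroExt ℤ M).snd = Q • z.snd at h1
  rw [TrivSqZeroExt.snd_inr, hM] at h1
  exact h1

/-- One class with values in a group killed by `p ^ s`. -/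
lemma final_cls {M : Type*} [AddCommGroup M] {p : ℕ} (hp : p.Prime)
    (htor : ∀ g : Γ, g ^ p = 1 → g = 1) (s : ℕ) (hM : ∀ x : M, p ^ s • x = 0)
    (A B : Matrix (Fin n) (Fin n) (MonoidAlgebra ℤ Γ)) (hAB : A * B = 1) (hBA : B * A = 1)
    {ω : Γ → List Γ → M} (hω : IsCyclicCocycle (2 * (m + 1)) ω) (c0 : Γ)
    (hsupp : ∀ c u, ¬ IsConj c0 c → ω c u = 0)
    (hc : (c0 = 1 ∧ 0 < m) ∨ ∀ v : Γ, ¬ IsConj c0 (v ^ p)) :
    m.factorial • pairing m A B ω = 0 := by
  let _ : Module ℤᵐᵒᵖ M := Module.compHom M ((RingHom.id ℤ).fromOpposite fun x y => mul_comm _ _)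
  have _ : IsCentralScalar ℤ M := ⟨fun _ _ => rfl⟩
  rcases Nat.eq_zero_or_pos s with hs | hs
  · have h1 := hM (m.factorial • pairing m A B ω)
    rw [hs, pow_zero, one_smul] at h1
    exact h1
  have hω' := (hω.map (TrivSqZeroExt.inrHom ℤ M).toAddMonoidHom).hom
  have hA := baseMat_mul_one (S := TrivSqZeroExt ℤ M) hAB
  have hB := baseMat_mul_one (S := TrivSqZeroExt ℤ M) hBA
  have hpair : chern m (baseMat (TrivSqZeroExt ℤ M) A) (baseMat (TrivSqZeroExt ℤ M) B)
      (fun c u => (TrivSqZeroExt.inrHom ℤ M).toAddMonoidHom (ω c u)) =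
      TrivSqZeroExt.inr (pairing m A B ω) := by
    rw [chern_base, pairing_map]
    rfl
  have key : ((p ^ s : ℕ) : TrivSqZeroExt ℤ M) ∣
      (((p ^ s - 1).descFactorial m : ℕ) : TrivSqZeroExt ℤ M) *
        TrivSqZeroExt.inr (pairing m A B ω) := by
    rw [← hpair]
    rcases hc with ⟨h1, h2⟩ | h1
    · subst h1
      refine classB2_dvd hω' h2 _ _ hA hB hp htor (fun c u hcu => ?_) s
      have h3 : ω c u = 0 := hsupp c u fun h => hcu (isConj_one_right.1 h)
      rw [h3, map_zero]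
    · refine classQ2_dvd hω' _ _ hA hB hp s hs c0 h1 (fun c u hcu => ?_)
      rw [hsupp c u hcu, map_zero]
  have h3 := final_snd (p ^ s) _ hM _ key
  obtain ⟨d, hd⟩ := final_desc (p ^ s) (pow_pos hp.pos s) m
  have h4 : ((-1) ^ m * (m.factorial : ℤ)) • pairing m A B ω = 0 := by
    have h5 : (-1) ^ m * (m.factorial : ℤ) =
        ((p ^ s - 1).descFactorial m : ℤ) - d * ((p ^ s : ℕ) : ℤ) := by
      linear_combination -hd
    rw [h5, sub_smul, mul_smul, natCast_zsmul, natCast_zsmul, h3, hM, smul_zero, sub_zero]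
  rw [mul_smul, natCast_zsmul] at h4
  rcases neg_one_pow_eq_or ℤ m with h | h
  · rwa [h, one_smul] at h4
  · rwa [h, neg_smul, one_smul, neg_eq_zero] at h4

/-- The integral Chern character. -/
theorem main_int2 {p : ℕ} (hp : p.Prime) (htor : ∀ g : Γ, g ^ p = 1 → g = 1)
    (A B : Matrix (Fin n) (Fin n) (MonoidAlgebra ℤ Γ)) (hAB : A * B = 1) (hBA : B * A = 1)
    {M : Type*} [AddCommGroup M] {ω : Γ → List Γ → M} (hω : IsCyclicCocycle (2 * (m + 1)) ω)
    (hsupp : ∀ c u, ω c u ≠ 0 → (c = 1 ∧ 0 < m) ∨ ∀ v : Γ, v ^ p ≠ c) (s : ℕ) :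
    ∃ x : M, m.factorial • pairing m A B ω = p ^ s • x := by
  set N : AddSubgroup M := (DistribSMul.toAddMonoidHom M (p ^ s)).range with hN
  have hN0 : ∀ x : M ⧸ N, p ^ s • x = 0 := by
    intro x
    obtain ⟨x, rfl⟩ := QuotientAddGroup.mk_surjective x
    rw [← QuotientAddGroup.mk_nsmul, QuotientAddGroup.eq_zero_iff]
    exact ⟨x, rfl⟩
  set f : M →+ M ⧸ N := QuotientAddGroup.mk' N with hf
  set g : (M ⧸ N) →+ (M ⧸ N) := DistribSMul.toAddMonoidHom (M ⧸ N) m.factorial with hg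
  have h0 : g (f (pairing m A B ω)) = 0 := by
    rw [← pairing_map, ← pairing_map]
    refine pairing_split A B fun c0 => ?_
    have e1 : clsM c0 (fun c u => g (f (ω c u))) =
        fun c u => g (clsM c0 (fun c u => f (ω c u)) c u) := by
      funext c u
      unfold clsM
      split_ifs
      · rfl
      · rw [map_zero]
    rw [e1, pairing_map]
    rcases clsM_zero_or c0 (fun c u => f (ω c u)) with hz | ⟨c, u, hcc, hcu⟩
    · rw [hz, pairing_zero, map_zero]
    · have hne : ω c u ≠ 0 := by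
        intro h
        apply hcu
        rw [h, map_zero]
      refine final_cls hp htor s hN0 A B hAB hBA (clsM_cocycle (hω.map f) c0) c0
        (fun c' u' h' => ?_) ?_
      · unfold clsM
        rw [if_neg h']
      · rcases hsupp c u hne with ⟨h1, h2⟩ | h1
        · left
          refine ⟨?_, h2⟩
          rw [h1] at hcc
          exact isConj_one_left.1 hcc
        · right
          intro v hv
          obtain ⟨t, ht⟩ := isConj_iff.1 (hcc.symm.trans hv)
          refine h1 (t⁻¹ * v * t) ?_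
          have h3 : (t⁻¹ * v * t) ^ p = t⁻¹ * v ^ p * t := by
            have := conj_pow (a := t⁻¹) (b := v) (i := p)
            simpa using this
          rw [h3, ← ht]
          group
  have h1 : (QuotientAddGroup.mk (m.factorial • pairing m A B ω) : M ⧸ N) = 0 := by
    rw [QuotientAddGroup.mk_nsmul]
    exact h0
  rw [QuotientAddGroup.eq_zero_iff] at h1
  obtain ⟨x, hx⟩ := h1
  exact ⟨x, hx.symm⟩

/-- Divisibility by coprime numbers. -/
lemma final_coprime {M : Type*} [AddCommGroup M] {a b : ℕ} (hab : a.Coprime b) (y : M)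
    (ha : ∃ x : M, y = a • x) (hb : ∃ x : M, y = b • x) : ∃ x : M, y = (a * b) • x := by
  obtain ⟨x, hx⟩ := ha
  obtain ⟨z, hz⟩ := hb
  obtain ⟨u, v, huv⟩ := Nat.isCoprime_iff_coprime.2 hab
  refine ⟨u • z + v • x, ?_⟩
  have h1 : y = (u * (a : ℤ) + v * (b : ℤ)) • y := by rw [huv, one_smul]
  have h2 : (u * (a : ℤ)) • y = ((a * b : ℕ) : ℤ) • (u • z) := by
    conv_lhs => rw [hz]
    rw [← natCast_zsmul z b, smul_smul, smul_smul]
    congr 1
    push_cast
    ring
  have h3 : (v * (b : ℤ)) • y = ((a * b : ℕ) : ℤ) • (v • x) := by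
    conv_lhs => rw [hx]
    rw [← natCast_zsmul x a, smul_smul, smul_smul]
    congr 1
    push_cast
    ring
  rw [← natCast_zsmul, smul_add, ← h2, ← h3, ← add_smul]
  exact h1

/-- The integral Chern character modulo every number. -/
theorem main_intN (N : ℕ) (hN : 0 < N)
    (hΓ : ∀ p : ℕ, p.Prime → p ∣ N → ∀ g : Γ, g ^ p = 1 → g = 1)
    (A B : Matrix (Fin n) (Fin n) (MonoidAlgebra ℤ Γ)) (hAB : A * B = 1) (hBA : B * A = 1)
    {M : Type*} [AddCommGroup M] {ω : Γ → List Γ → M} (hω : IsCyclicCocycle (2 * (m + 1)) ω)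
    (hsupp : ∀ c u, ω c u ≠ 0 → (c = 1 ∧ 0 < m) ∨
      ∀ p : ℕ, p.Prime → p ∣ N → ∀ v : Γ, v ^ p ≠ c) :
    ∃ x : M, m.factorial • pairing m A B ω = N • x := by
  induction N using Nat.recOnPosPrimePosCoprime with
  | prime_pow p k hp hk =>
    have hpk : p ∣ p ^ k := dvd_pow_self p hk.ne'
    refine main_int2 hp (hΓ p hp hpk) A B hAB hBA hω (fun c u h => ?_) k
    rcases hsupp c u h with h | h
    · exact Or.inl h
    · exact Or.inr (h p hp hpk)
  | zero => exact absurd hN (lt_irrefl _)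
  | one => exact ⟨_, (one_smul ℕ _).symm⟩
  | coprime a b ha hb hab iha ihb =>
    refine final_coprime hab _ (iha (by omega) (fun p hp hd => hΓ p hp (hd.mul_right b))
      fun c u h => ?_) (ihb (by omega) (fun p hp hd => hΓ p hp (hd.mul_left a)) fun c u h => ?_)
    · rcases hsupp c u h with h | h
      · exact Or.inl h
      · exact Or.inr fun p hp hd => h p hp (hd.mul_right b)
    · rcases hsupp c u h with h | h
      · exact Or.inl h
      · exact Or.inr fun p hp hd => h p hp (hd.mul_left a)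

end Pool.Agent.Lib.MP_8f66f0_al_Int
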